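import Pool.Agent.W_a4f561_P73.PHrm
import Pool.Agent.W_a4f561_P70.Trunk70

/-!
MP_a4f561_co, polylog, section 2: the trunk (helper73, with helper70's Trunk70), for states which need not be closed.
-/

set_option autoImplicit false

namespace Pool.Agent.W_a4f561_P73

open Pool.Agent.W_a4f561_h26 Pool.Agent.W_a4f561_E

variable {V : Type} {G : Bars V} {σ : St V} {D : Set V}

theorem Base0.mir (hB : Base0 G σ) : Base0 G.mir σ.mir := ⟨hB.top_mem, hB.bot_mem, ch_mir.2 hB.ch⟩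

/-- The mirror image has the same law. -/
theorem law_mir0 (hB : Base0 G σ) (ω : V × Bool → Bool) : law G.mir σ.mir ω = law G σ ω := by
  funext v
  by_cases h : v ∈ σ.S ∪ σ.Dec
  · have h' : v ∈ σ.mir.S ∪ σ.mir.Dec := h
    rw [law_SD (G := G.mir) (σ := σ.mir) ω h', law_SD ω h]
    rfl
  · have h2 : v ∉ σ.S := fun h3 => h (Or.inl h3)
    have h3 : v ∉ σ.Dec := fun h4 => h (Or.inr h4)
    have hv := inn_of_notS hB h2
    rw [law_ask (G := G.mir) (σ := σ.mir) ω h2 h3, law_ask ω h2 h3, coin_mir G hv, (zz_mir G hv).1, (zz_mir G hv).2]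

variable [Fintype V] [DecidableEq V]

/-- TRUNK: the route of `z` leaves `D` in `E` and has few bad steps on both sides. -/
theorem trunk {D E : Set V} {s0 N : ℕ} {δ κ : ℝ} {z : V}
    (hB : Base0 G σ) (hD : HD G σ) (hD' : HD G.mir σ.mir) (hS : ∀ v ∈ D, v ∉ σ.S) (hL : LENS G σ D s0)
    (hs : ∀ v ∈ D, s0 < G.t v) (hz : z ∈ D) (hδ : 0 ≤ δ)
    (hκ : κ ≤ pr (fun _ => none) (fun ω => LV G D E (law G σ ω) z))
    (hN : 2 * (Fintype.card V : ℝ) * ((100 / 101 : ℝ) ^ (N + 1) + 2000 * (Fintype.card V : ℝ) ^ 2 * δ) < κ) :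
    ∃ ω, LV G D E (law G σ ω) z ∧ ∀ w, PD G D (law G σ ω) z w → bcnt G σ D δ ω z w ≤ N ∧
      bcnt G.mir σ.mir D δ ω z w ≤ N := by
  refine Pool.Agent.W_a4f561_P70.trunk_of (fun w _ => harm2 G σ D hB hS hD hL hs hz hδ (N + 1)) (fun w _ => ?_) hδ hκ hN
  have h := harm2 G.mir σ.mir D hB.mir hS hD' (Pool.Agent.W_a4f561_P70.lens_mir hL) hs hz hδ (N + 1) (w := w)
  simp only [law_mir0 hB] at h
  exact h

end Pool.Agent.W_a4f561_P73
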