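import Pool.Agent.W_a4f561_h1.Def

/-!
MP_a4f561_co, polylog, step (5): adding the labels of one side keeps the situation of the piece (helper73).
-/

set_option autoImplicit false

namespace Pool.Agent.W_a4f561_P73A

open Pool.Agent.W_a4f561_h26 Pool.Agent.W_a4f561_P73 Pool.Agent.W_a4f561_P45 Pool.Agent.W_a4f561_P8
open Pool.Agent.W_a4f561_P16 Pool.Agent.W_a4f561_h1

section anc

variable {par par' : ℕ → ℕ} {n : ℕ}

theorem par_iter_le (hp0 : par 0 = 0) (hlt : ∀ i, 1 ≤ i → par i < i) (k j : ℕ) : par^[k] j ≤ j := by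
  induction k with
  | zero => exact le_rfl
  | succ k ih =>
    rw [Function.iterate_succ_apply']
    rcases Nat.eq_zero_or_pos (par^[k] j) with h | h
    · rw [h, hp0]
      exact Nat.zero_le _
    · exact (hlt _ h).le.trans ih

/-- Ancestors of old labels do not change. -/
theorem anc_old (hp0 : par 0 = 0) (hlt : ∀ i, 1 ≤ i → par i < i) (hp : ∀ i, i < n → par' i = par i) {i j : ℕ}
    (hj : j < n) : Anc par' i j ↔ Anc par i j := by
  have key : ∀ k, par'^[k] j = par^[k] j := by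
    intro k
    induction k with
    | zero => rfl
    | succ k ih =>
      rw [Function.iterate_succ_apply', Function.iterate_succ_apply', ih]
      exact hp _ (lt_of_le_of_lt (par_iter_le hp0 hlt k j) hj)
  constructor
  · rintro ⟨k, hk⟩
    exact ⟨k, by rw [← key k]; exact hk⟩
  · rintro ⟨k, hk⟩
    exact ⟨k, by rw [key k]; exact hk⟩

/-- Moves between old labels stay moves. -/
theorem mv_old {α : Type} {cls cls' : ℕ → α} (hp0 : par 0 = 0) (hlt : ∀ i, 1 ≤ i → par i < i)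
    (hp : ∀ i, i < n → par' i = par i) (hc : ∀ i, i < n → cls' i = cls i) {i i' : ℕ} (hi : i < n) (hi' : i' < n)
    (h : Mv par cls i i') : Mv par' cls' i i' := by
  rcases h with ⟨h1, h2⟩ | ⟨j, h1, h2, h3, h4⟩
  · exact Or.inl ⟨(anc_old hp0 hlt hp hi').2 h1, h2⟩
  · refine Or.inr ⟨j, h1, h2, ?_, (anc_old hp0 hlt hp hi').2 h4⟩
    rw [hc j (by omega), hc i hi, h3]

end anc

variable {V : Type} [Fintype V] [DecidableEq V] {G : Bars V} {rnk : V → ℕ} {N : ℕ}

section add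

variable (Y : MS V) (k : ℕ) (b : Bool) (i0 ρ q : ℕ) (F : ℕ → Set V) (s e : ℕ → ℕ) (evn : Bool → V → V → Prop)

omit [Fintype V] [DecidableEq V] in
theorem add_cell_not {u : V} (h : ∀ l, l < q → u ∉ F l) : (Y.add k b i0 ρ q F s e evn).cell u = Y.cell u := by
  classical
  show (if h : ∃ l, l < q ∧ u ∈ F l then Y.nl + h.choose else Y.cell u) = _
  rw [dif_neg]
  rintro ⟨l, h1, h2⟩
  exact h l h1 h2

omit [Fintype V] [DecidableEq V] in
theorem add_par_old {i : ℕ} (h : i < Y.nl) : (Y.add k b i0 ρ q F s e evn).par i = Y.par i := by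
  show (if Y.nl ≤ i ∧ i < Y.nl + q then i0 else Y.par i) = _
  rw [if_neg]
  omega

omit [Fintype V] [DecidableEq V] in
theorem add_e_old {i : ℕ} (h : i < Y.nl) : (Y.add k b i0 ρ q F s e evn).e i = Y.e i := by
  show (if Y.nl ≤ i ∧ i < Y.nl + q then e (i - Y.nl) else Y.e i) = _
  rw [if_neg]
  omega

omit [Fintype V] [DecidableEq V] in
theorem add_e_new {i : ℕ} (h : Y.nl ≤ i) (h' : i < Y.nl + q) :
    (Y.add k b i0 ρ q F s e evn).e i = e (i - Y.nl) := by
  show (if Y.nl ≤ i ∧ i < Y.nl + q then e (i - Y.nl) else Y.e i) = _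
  rw [if_pos ⟨h, h'⟩]

omit [Fintype V] [DecidableEq V] in
theorem add_ph_old {i : ℕ} (h : i < Y.nl) : (Y.add k b i0 ρ q F s e evn).ph i = Y.ph i := by
  show (if Y.nl ≤ i ∧ i < Y.nl + q then k else Y.ph i) = _
  rw [if_neg]
  omega

omit [Fintype V] [DecidableEq V] in
theorem add_sd_old {i : ℕ} (h : i < Y.nl) : (Y.add k b i0 ρ q F s e evn).sd i = Y.sd i := by
  show (if Y.nl ≤ i ∧ i < Y.nl + q then b else Y.sd i) = _
  rw [if_neg]
  omega

omit [Fintype V] [DecidableEq V] in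
theorem add_cls_old {i : ℕ} (h : i < Y.nl) : (Y.add k b i0 ρ q F s e evn).cls i = Y.cls i := by
  unfold MS.cls
  rw [add_ph_old Y k b i0 ρ q F s e evn h, add_sd_old Y k b i0 ρ q F s e evn h]

end add

/-- (5) the piece goes on. -/
theorem add_PS {Y : MS V} {c r : V} {S0 : Set V} {b : Bool} {κ : ℝ} {q : ℕ} {F : ℕ → Set V} {s e : ℕ → ℕ}
    {evn : Bool → V → V → Prop} (hW : WI G rnk N Y.np Y c) (hP : PS G rnk Y S0 r c) (hnp : 1 ≤ Y.np)
    (_ : Y.rt Y.np = r) (hF : Fam G Y.σ (Y.D (Y.lc Y.np)) (Y.P G Y.np) κ (2 * N + 2) q F s e)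
    (he : ∀ v ∈ Y.P G Y.np, G.t v < G.t c) (hc : c ∉ Y.D (Y.lc Y.np)) :
    PS G rnk (Y.add Y.np b (Y.lc Y.np) (rnk r + 1) q F s e evn) S0 r c := by
  have hcell : (Y.add Y.np b (Y.lc Y.np) (rnk r + 1) q F s e evn).cell c = Y.cell c :=
    add_cell_not Y _ _ _ _ _ _ _ _ _ fun l hl h => hc (hF.sub l hl h)
  exact
    { sub := hP.sub
      cl0 := hP.cl0
      bot0 := hP.bot0
      top0 := hP.top0
      low0 := hP.low0
      rts := hP.rts
      rS := hP.rS
      orb := hP.orb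
      pc := hP.pc
      cp := hP.cp
      rt0 := hP.rt0
      le := by
        intro i h1 h2 h3
        have h2' : i < Y.nl + q := h2
        rcases Nat.lt_or_ge i Y.nl with h4 | h4
        · rw [add_e_old Y _ _ _ _ _ _ _ _ _ h4]
          refine hP.le i h1 h4 ?_
          rw [← h3]
          show Y.rt (Y.ph i) = Y.rt ((Y.add Y.np b (Y.lc Y.np) (rnk r + 1) q F s e evn).ph i)
          rw [add_ph_old Y _ _ _ _ _ _ _ _ _ h4]
        · rw [add_e_new Y _ _ _ _ _ _ _ _ _ h4 h2']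
          obtain ⟨w, h5, h6⟩ := hF.eB (i - Y.nl) (by omega)
          rw [← h6]
          exact he w h5
      nx := by
        intro h1 h2
        obtain ⟨h3, h4, h5, h6⟩ := hP.nx h1 h2
        refine ⟨h3, h4, ?_, h6⟩
        rw [hcell]
        exact mv_old hW.lab.par0 hW.par_lt (fun i hi => add_par_old Y _ _ _ _ _ _ _ _ _ hi)
          (fun i hi => add_cls_old Y _ _ _ _ _ _ _ _ _ hi) (hW.lc_lt _ hnp le_rfl) (hW.cell_lt c) h5
      nr := hP.nr }

end Pool.Agent.W_a4f561_P73A
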