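import Pool.Agent.W_a4f561_E.Coin70
import Pool.Agent.W_a4f561_h53.Ineq

/-!
MP_a4f561_co, polylog: the abstract induction of the harm lemma with an additive functional (helper73, after Harm70 by helper70).

A machine runs through histories; every step is determined or asks one coin; the history remembers the asked coins.
The functional `psi` collects the events which have small unconditional probability.
-/

set_option autoImplicit false

namespace Pool.Agent.W_a4f561_P73

open Finset Pool.Agent.W_a4f561_h53 Pool.Agent.W_a4f561_E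

variable {C : Type} [Fintype C] [DecidableEq C]

/-- The machine. `bit`: the value of the asked coin (`true` at a determined step). -/
structure Mach (C : Type) where
  /-- histories -/
  H : Type
  /-- the coins asked so far -/
  mem : H → C → Option Bool
  /-- remaining time -/
  rk : H → ℕ
  /-- the run is over -/
  stop : H → Prop
  /-- the coin asked now -/
  ask : H → Option C
  /-- the next history -/
  nxt : H → Bool → H
  /-- the step in this direction is harmful -/
  hm : H → Bool → Prop
  /-- the run visits the target -/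
  vis : H → (C → Bool) → Prop
  /-- the number of harmful steps to come (before the target) -/
  cnt : H → (C → Bool) → ℕ
  /-- the additive functional -/
  psi : H → (C → Bool) → ℝ

/-- The direction of the step. -/
def Mach.bit (M : Mach C) (om : C → Bool) (h : M.H) : Bool := ((M.ask h).map om).getD true

/-- The next history. -/
def Mach.stp (M : Mach C) (om : C → Bool) (h : M.H) : M.H := M.nxt h (M.bit om h)

/-- The laws of a machine. `A` is the factor of the functional. -/
structure Mach.Law (M : Mach C) (Inv : M.H → (C → Option Bool) → Prop) (A : ℝ) : Prop where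
  rk_det : ∀ h g, Inv h g → ¬ M.stop h → M.ask h = none → M.rk (M.nxt h true) < M.rk h
  rk_ask : ∀ h g q b, Inv h g → ¬ M.stop h → M.ask h = some q →
    (uni (M.mem h) g q = none ∨ uni (M.mem h) g q = some b) → M.rk (M.nxt h b) < M.rk h
  cnt_stop : ∀ h g om, Inv h g → M.stop h → (∀ q b, uni (M.mem h) g q = some b → om q = b) → M.cnt h om = 0
  mem_det : ∀ h g, Inv h g → ¬ M.stop h → M.ask h = none → M.mem (M.nxt h true) = M.mem h
  mem_ask : ∀ h g q b, Inv h g → ¬ M.stop h → M.ask h = some q →
    (uni (M.mem h) g q = none ∨ uni (M.mem h) g q = some b) → M.mem (M.nxt h b) = asg (M.mem h) q b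
  vis_step : ∀ h g om, Inv h g → ¬ M.stop h → (∀ q b, uni (M.mem h) g q = some b → om q = b) →
    (M.vis h om ↔ M.vis (M.stp om h) om)
  cnt_yes : ∀ h g om, Inv h g → ¬ M.stop h → (∀ q b, uni (M.mem h) g q = some b → om q = b) → M.hm h (M.bit om h) →
    M.cnt h om = M.cnt (M.stp om h) om + 1
  cnt_no : ∀ h g om, Inv h g → ¬ M.stop h → (∀ q b, uni (M.mem h) g q = some b → om q = b) → ¬ M.hm h (M.bit om h) →
    M.cnt h om = M.cnt (M.stp om h) om
  psi_nonneg : ∀ h om, 0 ≤ M.psi h om
  psi_step : ∀ h g om, Inv h g → ¬ M.stop h → (∀ q b, uni (M.mem h) g q = some b → om q = b) →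
    M.psi (M.stp om h) om ≤ M.psi h om
  det : ∀ h g, Inv h g → ¬ M.stop h → M.ask h = none → ¬ M.hm h true ∧ Inv (M.nxt h true) g
  known : ∀ h g q b, Inv h g → ¬ M.stop h → M.ask h = some q → uni (M.mem h) g q = some b →
    ¬ M.hm h b ∧ Inv (M.nxt h b) g
  new : ∀ h g q b, Inv h g → ¬ M.stop h → M.ask h = some q → uni (M.mem h) g q = none → Inv (M.nxt h b) g
  harm : ∀ h g q d, Inv h g → ¬ M.stop h → M.ask h = some q → uni (M.mem h) g q = none → M.hm h d →
    ¬ M.hm h (!d) ∧
    (Pr (uni (M.mem h) g) (M.vis h) ≤ A * Ex (uni (M.mem h) g) (M.psi h) ∨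
      Pr (uni (M.mem (M.nxt h d)) g) (M.vis (M.nxt h d)) = 0 ∨
      Pr (uni (M.mem (M.nxt h (!d))) g) (M.vis (M.nxt h (!d))) ≤ 1 / 1000 * Pr (uni (M.mem h) g) (M.vis h) ∨
      ∃ r, r ≠ q ∧ uni (M.mem h) g r = none ∧
        Pr (uni (M.mem (M.nxt h (!d))) g) (M.vis (M.nxt h (!d))) ≤
          Pr (uni (M.mem (M.nxt h d)) (asg g r false)) (M.vis (M.nxt h d)) / 2 +
            1 / 1000 * Pr (uni (M.mem h) g) (M.vis h) ∧
        ∀ b, Inv (M.nxt h d) (asg g r b))

variable {M : Mach C} {Inv : M.H → (C → Option Bool) → Prop} {A : ℝ}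

omit [Fintype C] [DecidableEq C] in
theorem Mach.bit_none {h : M.H} (hq : M.ask h = none) (om : C → Bool) : M.bit om h = true := by
  unfold Mach.bit
  rw [hq]
  rfl

omit [Fintype C] [DecidableEq C] in
theorem Mach.bit_some {h : M.H} {q : C} (hq : M.ask h = some q) (om : C → Bool) : M.bit om h = om q := by
  unfold Mach.bit
  rw [hq]
  rfl

/-- The event of the claim. -/
def Mach.ev (M : Mach C) (h : M.H) (j : ℕ) (om : C → Bool) : Prop := M.vis h om ∧ j ≤ M.cnt h om

theorem Mach.ev_no (L : M.Law Inv A) {h : M.H} {g : C → Option Bool} (hI : Inv h g) (hs : ¬ M.stop h) {om : C → Bool}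
    (ho : ∀ q b, uni (M.mem h) g q = some b → om q = b) (hh : ¬ M.hm h (M.bit om h)) (j : ℕ) :
    M.ev h j om ↔ M.ev (M.nxt h (M.bit om h)) j om := by
  unfold Mach.ev
  rw [L.vis_step h g om hI hs ho, L.cnt_no h g om hI hs ho hh]
  rfl

theorem Mach.ev_yes (L : M.Law Inv A) {h : M.H} {g : C → Option Bool} (hI : Inv h g) (hs : ¬ M.stop h) {om : C → Bool}
    (ho : ∀ q b, uni (M.mem h) g q = some b → om q = b) (hh : M.hm h (M.bit om h)) (j : ℕ) :
    M.ev h (j + 1) om ↔ M.ev (M.nxt h (M.bit om h)) j om := by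
  unfold Mach.ev
  rw [L.vis_step h g om hI hs ho, L.cnt_yes h g om hI hs ho hh]
  simp only [add_le_add_iff_right]
  rfl

theorem sqrt_mean {a b : ℝ} (ha : 0 ≤ a) (hb : 0 ≤ b) :
    (Real.sqrt a + Real.sqrt b) / 2 ≤ Real.sqrt ((a + b) / 2) := by
  apply Real.le_sqrt_of_sq_le
  have h1 := Real.sq_sqrt ha
  have h2 := Real.sq_sqrt hb
  nlinarith [sq_nonneg (Real.sqrt a - Real.sqrt b)]

/-- The claim of the harm lemma. -/
theorem Mach.claim (L : M.Law Inv A) (hA0 : 0 ≤ A) : ∀ (n : ℕ) (h : M.H), M.rk h = n →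
    ∀ (g : C → Option Bool) (j : ℕ), Inv h g →
    Pr (uni (M.mem h) g) (M.ev h j) ≤ (100 / 101 : ℝ) ^ j * Real.sqrt (Pr (uni (M.mem h) g) (M.vis h)) +
      A * Ex (uni (M.mem h) g) (M.psi h) := by
  intro n
  induction n using Nat.strong_induction_on with
  | _ n ih =>
  intro h hn g j hI
  have hp0 : ∀ (p : C → Option Bool) (h : M.H), 0 ≤ A * Ex p (M.psi h) := fun p h =>
    mul_nonneg hA0 (Ex_nonneg p (L.psi_nonneg h))
  have hf0 : 0 ≤ Pr (uni (M.mem h) g) (M.vis h) := Pr_nonneg _ _
  have hf1 : Pr (uni (M.mem h) g) (M.vis h) ≤ 1 := Pr_le_one _ _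
  have hle : ∀ j, Pr (uni (M.mem h) g) (M.ev h j) ≤ Pr (uni (M.mem h) g) (M.vis h) := fun j =>
    Pr_mono _ fun om _ hv => hv.1
  have hsq : Real.sqrt (Pr (uni (M.mem h) g) (M.vis h)) ^ 2 = Pr (uni (M.mem h) g) (M.vis h) := Real.sq_sqrt hf0
  have hs0 := Real.sqrt_nonneg (Pr (uni (M.mem h) g) (M.vis h))
  have hs1 : Real.sqrt (Pr (uni (M.mem h) g) (M.vis h)) ≤ 1 := Real.sqrt_le_one.2 hf1
  rcases j with _ | j
  · rw [pow_zero, one_mul]
    have := hp0 (uni (M.mem h) g) h
    have := hle 0
    nlinarith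
  have hcj : (0 : ℝ) < (100 / 101) ^ (j + 1) := by positivity
  -- a stopped history
  by_cases hs : M.stop h
  · have : Pr (uni (M.mem h) g) (M.ev h (j + 1)) = 0 := Pr_false _ fun om ho hv => by
      have := hv.2
      rw [L.cnt_stop h g om hI hs ho] at this
      omega
    rw [this]
    have := hp0 (uni (M.mem h) g) h
    positivity
  rcases hq : M.ask h with _ | q
  · -- a determined step
    obtain ⟨h1, h2⟩ := L.det h g hI hs hq
    have hm := L.mem_det h g hI hs hq
    have h3 := ih _ (by rw [← hn]; exact L.rk_det h g hI hs hq) (M.nxt h true) rfl g (j + 1) h2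
    rw [hm] at h3
    have h4 : Pr (uni (M.mem h) g) (M.ev h (j + 1)) = Pr (uni (M.mem h) g) (M.ev (M.nxt h true) (j + 1)) :=
      Pr_congr _ fun om ho => by
        have := Mach.ev_no L hI hs ho (by rwa [Mach.bit_none hq]) (j + 1)
        rwa [Mach.bit_none hq] at this
    have h5 : Pr (uni (M.mem h) g) (M.vis h) = Pr (uni (M.mem h) g) (M.vis (M.nxt h true)) :=
      Pr_congr _ fun om ho => by
        have := L.vis_step h g om hI hs ho
        unfold Mach.stp at this
        rwa [Mach.bit_none hq] at this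
    have h6 : Ex (uni (M.mem h) g) (M.psi (M.nxt h true)) ≤ Ex (uni (M.mem h) g) (M.psi h) :=
      Ex_mono _ fun om ho => by
        have := L.psi_step h g om hI hs ho
        unfold Mach.stp at this
        rwa [Mach.bit_none hq] at this
    rw [h4, h5]
    have h7 := mul_le_mul_of_nonneg_left h6 hA0
    linarith
  rcases hp : uni (M.mem h) g q with _ | b
  · -- a new coin
    have hmem : ∀ b, uni (M.mem (M.nxt h b)) g = asg (uni (M.mem h) g) q b := fun b => by
      rw [L.mem_ask h g q b hI hs hq (Or.inl hp), uni_asg_left]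
    have hrk : ∀ b, M.rk (M.nxt h b) < n := fun b => by rw [← hn]; exact L.rk_ask h g q b hI hs hq (Or.inl hp)
    have hcons : ∀ (b : Bool) (om : C → Bool), (∀ q' b', asg (uni (M.mem h) g) q b q' = some b' → om q' = b') →
        ∀ q' b', uni (M.mem h) g q' = some b' → om q' = b' := by
      intro b om ho q' b' hq'
      refine ho q' b' ?_
      by_cases h : q' = q
      · subst h
        rw [hp] at hq'
        simp at hq'
      · rwa [asg_ne _ _ h]
    have hvis : ∀ b, Pr (asg (uni (M.mem h) g) q b) (M.vis h) =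
        Pr (uni (M.mem (M.nxt h b)) g) (M.vis (M.nxt h b)) := fun b => by
      rw [hmem]
      refine Pr_congr _ fun om ho => ?_
      have h1 : om q = b := ho q b (asg_same _ _ _)
      have h2 := L.vis_step h g om hI hs (hcons b om ho)
      unfold Mach.stp at h2
      rwa [Mach.bit_some hq, h1] at h2
    have hpsi : ∀ b, Ex (uni (M.mem (M.nxt h b)) g) (M.psi (M.nxt h b)) ≤
        Ex (asg (uni (M.mem h) g) q b) (M.psi h) := fun b => by
      rw [hmem]
      refine Ex_mono _ fun om ho => ?_
      have h1 : om q = b := ho q b (asg_same _ _ _)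
      have h2 := L.psi_step h g om hI hs (hcons b om ho)
      unfold Mach.stp at h2
      rwa [Mach.bit_some hq, h1] at h2
    have hev : ∀ b j', (¬ M.hm h b → Pr (asg (uni (M.mem h) g) q b) (M.ev h j') =
        Pr (uni (M.mem (M.nxt h b)) g) (M.ev (M.nxt h b) j')) ∧
        (M.hm h b → Pr (asg (uni (M.mem h) g) q b) (M.ev h (j' + 1)) =
        Pr (uni (M.mem (M.nxt h b)) g) (M.ev (M.nxt h b) j')) := fun b j' => by
      rw [hmem]
      refine ⟨fun hb => Pr_congr _ fun om ho => ?_, fun hb => Pr_congr _ fun om ho => ?_⟩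
      · have h1 : om q = b := ho q b (asg_same _ _ _)
        have h2 := Mach.ev_no (j := j') L hI hs (om := om) (hcons b om ho) (by rwa [Mach.bit_some hq, h1])
        rwa [Mach.bit_some hq, h1] at h2
      · have h1 : om q = b := ho q b (asg_same _ _ _)
        have h2 := Mach.ev_yes (j := j') L hI hs (om := om) (hcons b om ho) (by rwa [Mach.bit_some hq, h1])
        rwa [Mach.bit_some hq, h1] at h2
    have hIH : ∀ b j', Pr (uni (M.mem (M.nxt h b)) g) (M.ev (M.nxt h b) j') ≤
        (100 / 101 : ℝ) ^ j' * Real.sqrt (Pr (uni (M.mem (M.nxt h b)) g) (M.vis (M.nxt h b))) +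
          A * Ex (asg (uni (M.mem h) g) q b) (M.psi h) := fun b j' => by
      have h1 := ih _ (hrk b) (M.nxt h b) rfl g j' (L.new h g q b hI hs hq hp)
      have h2 := mul_le_mul_of_nonneg_left (hpsi b) hA0
      linarith
    have hfs := Pr_split hp (M.vis h)
    rw [hvis true, hvis false] at hfs
    have hGs := Pr_split hp (M.ev h (j + 1))
    have hps := Ex_split hp (M.psi h)
    have hn0 : ∀ b, 0 ≤ Pr (uni (M.mem (M.nxt h b)) g) (M.vis (M.nxt h b)) := fun b => Pr_nonneg _ _
    by_cases hd : ∃ d, M.hm h d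
    · obtain ⟨d, hd⟩ := hd
      obtain ⟨h1, h2⟩ := L.harm h g q d hI hs hq hp hd
      -- normalise the direction
      have hfs' : Pr (uni (M.mem h) g) (M.vis h) = (Pr (uni (M.mem (M.nxt h d)) g) (M.vis (M.nxt h d)) +
          Pr (uni (M.mem (M.nxt h (!d))) g) (M.vis (M.nxt h (!d)))) / 2 := by
        rw [hfs]
        cases d
        · simp only [Bool.not_false]
          ring
        · simp only [Bool.not_true]
      have hps' : Ex (uni (M.mem h) g) (M.psi h) = (Ex (asg (uni (M.mem h) g) q d) (M.psi h) +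
          Ex (asg (uni (M.mem h) g) q (!d)) (M.psi h)) / 2 := by
        rw [hps]
        cases d
        · simp only [Bool.not_false]
          ring
        · simp only [Bool.not_true]
      have hGs' : Pr (uni (M.mem h) g) (M.ev h (j + 1)) = (Pr (uni (M.mem (M.nxt h d)) g) (M.ev (M.nxt h d) j) +
          Pr (uni (M.mem (M.nxt h (!d))) g) (M.ev (M.nxt h (!d)) (j + 1))) / 2 := by
        rw [hGs, ← (hev d j).2 hd, ← (hev (!d) (j + 1)).1 h1]
        cases d
        · simp only [Bool.not_false]
          ring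
        · simp only [Bool.not_true]
      have hc1 : (100 / 101 : ℝ) ^ j = (100 / 101) ^ (j + 1) * (101 / 100) := by
        rw [pow_succ]
        ring
      rcases h2 with h2 | h2 | h2 | ⟨r, hr1, hr2, h2, h3⟩
      · have h4 := hle (j + 1)
        have h5 := mul_nonneg hcj.le hs0
        linarith
      · have hd0 : Pr (uni (M.mem (M.nxt h d)) g) (M.ev (M.nxt h d) j) = 0 :=
          le_antisymm ((Pr_mono _ fun om _ hv => hv.1).trans h2.le) (Pr_nonneg _ _)
        rw [hGs', hfs', hd0, h2, zero_add, zero_add, hps']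
        have h6 := hIH (!d) (j + 1)
        have h7 : Real.sqrt (Pr (uni (M.mem (M.nxt h (!d))) g) (M.vis (M.nxt h (!d)))) / 2 ≤
            Real.sqrt (Pr (uni (M.mem (M.nxt h (!d))) g) (M.vis (M.nxt h (!d))) / 2) := by
          have := sqrt_mean le_rfl (hn0 (!d))
          rwa [Real.sqrt_zero, zero_add, zero_add] at this
        have h8 := mul_le_mul_of_nonneg_left h7 hcj.le
        have h9 := hp0 (asg (uni (M.mem h) g) q d) h
        linarith
      · have h4 := ineq_one (hn0 d) (hn0 (!d)) (by rw [← hfs']; exact h2)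
        rw [hGs', hfs', hps']
        have h5 := hIH d j
        have h6 := hIH (!d) (j + 1)
        rw [hc1] at h5
        have h8 := mul_le_mul_of_nonneg_left h4 hcj.le
        have h9 : (100 / 101 : ℝ) ^ (j + 1) * ((101 / 100 * Real.sqrt (Pr (uni (M.mem (M.nxt h d)) g) (M.vis (M.nxt h d))) +
            Real.sqrt (Pr (uni (M.mem (M.nxt h (!d))) g) (M.vis (M.nxt h (!d))))) / 2) =
            ((100 / 101 : ℝ) ^ (j + 1) * (101 / 100) *
              Real.sqrt (Pr (uni (M.mem (M.nxt h d)) g) (M.vis (M.nxt h d))) + (100 / 101 : ℝ) ^ (j + 1) *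
              Real.sqrt (Pr (uni (M.mem (M.nxt h (!d))) g) (M.vis (M.nxt h (!d))))) / 2 := by ring
        rw [h9] at h8
        linarith
      · -- early reveal
        have hgr : g r = none := (uni_eq_none.1 hr2).2
        have hmr : M.mem (M.nxt h d) r = none := by
          rw [L.mem_ask h g q d hI hs hq (Or.inl hp), asg_ne _ _ hr1]
          exact (uni_eq_none.1 hr2).1
        have hur : uni (M.mem (M.nxt h d)) g r = none := uni_eq_none.2 ⟨hmr, hgr⟩
        have hrevE : ∀ X : (C → Bool) → ℝ, Ex (uni (M.mem (M.nxt h d)) g) X =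
            (Ex (uni (M.mem (M.nxt h d)) (asg g r true)) X + Ex (uni (M.mem (M.nxt h d)) (asg g r false)) X) / 2 := by
          intro X
          rw [Ex_split hur X, uni_asg_right g true hmr, uni_asg_right g false hmr]
        have hrev : ∀ A : (C → Bool) → Prop, Pr (uni (M.mem (M.nxt h d)) g) A =
            (Pr (uni (M.mem (M.nxt h d)) (asg g r true)) A + Pr (uni (M.mem (M.nxt h d)) (asg g r false)) A) / 2 := by
          intro A
          rw [Pr_split hur A, uni_asg_right g true hmr, uni_asg_right g false hmr]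
        have hIH2 : ∀ b, Pr (uni (M.mem (M.nxt h d)) (asg g r b)) (M.ev (M.nxt h d) j) ≤
            (100 / 101 : ℝ) ^ j * Real.sqrt (Pr (uni (M.mem (M.nxt h d)) (asg g r b)) (M.vis (M.nxt h d))) +
              A * Ex (uni (M.mem (M.nxt h d)) (asg g r b)) (M.psi (M.nxt h d)) := fun b =>
          ih _ (hrk d) (M.nxt h d) rfl (asg g r b) j (h3 b)
        have hA := Pr_nonneg (uni (M.mem (M.nxt h d)) (asg g r true)) (M.vis (M.nxt h d))
        have hR := Pr_nonneg (uni (M.mem (M.nxt h d)) (asg g r false)) (M.vis (M.nxt h d))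
        have hfs2 := hrev (M.vis (M.nxt h d))
        have h4 := ineq_two hA hR (hn0 (!d)) (by
          rw [← hfs2, ← hfs']
          exact h2)
        rw [← hfs2, ← hfs'] at h4
        rw [hGs', hrev (M.ev (M.nxt h d) j), hps']
        have h5 := hIH2 true
        have h6 := hIH2 false
        have h7 := hIH (!d) (j + 1)
        have h10 := mul_le_mul_of_nonneg_left (hpsi d) hA0
        rw [hrevE] at h10
        rw [hc1] at h5 h6
        have h8 := mul_le_mul_of_nonneg_left h4 hcj.le
        have h9 : (100 / 101 : ℝ) ^ (j + 1) * ((101 / 100 *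
              ((Real.sqrt (Pr (uni (M.mem (M.nxt h d)) (asg g r true)) (M.vis (M.nxt h d))) +
                Real.sqrt (Pr (uni (M.mem (M.nxt h d)) (asg g r false)) (M.vis (M.nxt h d)))) / 2) +
              Real.sqrt (Pr (uni (M.mem (M.nxt h (!d))) g) (M.vis (M.nxt h (!d))))) / 2) =
            (((100 / 101 : ℝ) ^ (j + 1) * (101 / 100) *
                Real.sqrt (Pr (uni (M.mem (M.nxt h d)) (asg g r true)) (M.vis (M.nxt h d))) +
              (100 / 101 : ℝ) ^ (j + 1) * (101 / 100) *
                Real.sqrt (Pr (uni (M.mem (M.nxt h d)) (asg g r false)) (M.vis (M.nxt h d)))) / 2 +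
              (100 / 101 : ℝ) ^ (j + 1) *
                Real.sqrt (Pr (uni (M.mem (M.nxt h (!d))) g) (M.vis (M.nxt h (!d))))) / 2 := by ring
        rw [h9] at h8
        linarith
    · push Not at hd
      rw [hGs, (hev true (j + 1)).1 (hd true), (hev false (j + 1)).1 (hd false), hps]
      have h5 := hIH true (j + 1)
      have h6 := hIH false (j + 1)
      have h7 := sqrt_mean (hn0 true) (hn0 false)
      rw [← hfs] at h7
      have h8 := mul_le_mul_of_nonneg_left h7 hcj.le
      linarith
  · -- a coin which is known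
    obtain ⟨h1, h2⟩ := L.known h g q b hI hs hq hp
    have hmem : uni (M.mem (M.nxt h b)) g = uni (M.mem h) g := by
      rw [L.mem_ask h g q b hI hs hq (Or.inr hp), uni_asg_left, asg_eq_self hp]
    have h3 := ih _ (by rw [← hn]; exact L.rk_ask h g q b hI hs hq (Or.inr hp)) (M.nxt h b) rfl g (j + 1) h2
    rw [hmem] at h3
    have h4 : Pr (uni (M.mem h) g) (M.ev h (j + 1)) = Pr (uni (M.mem h) g) (M.ev (M.nxt h b) (j + 1)) :=
      Pr_congr _ fun om ho => by
        have h5 : om q = b := ho q b hp
        have := Mach.ev_no L hI hs ho (by rwa [Mach.bit_some hq, h5]) (j + 1)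
        rwa [Mach.bit_some hq, h5] at this
    have h5 : Pr (uni (M.mem h) g) (M.vis h) = Pr (uni (M.mem h) g) (M.vis (M.nxt h b)) :=
      Pr_congr _ fun om ho => by
        have h6 : om q = b := ho q b hp
        have := L.vis_step h g om hI hs ho
        unfold Mach.stp at this
        rwa [Mach.bit_some hq, h6] at this
    have h6 : Ex (uni (M.mem h) g) (M.psi (M.nxt h b)) ≤ Ex (uni (M.mem h) g) (M.psi h) :=
      Ex_mono _ fun om ho => by
        have h6 : om q = b := ho q b hp
        have := L.psi_step h g om hI hs ho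
        unfold Mach.stp at this
        rwa [Mach.bit_some hq, h6] at this
    rw [h4, h5]
    have h7 := mul_le_mul_of_nonneg_left h6 hA0
    linarith

/-- The harm lemma for a machine: many harmful steps on the way to the target are improbable. -/
theorem Mach.harm_le (L : M.Law Inv A) (hA0 : 0 ≤ A) {h : M.H} (hI : Inv h fun _ => none) (j : ℕ) :
    Pr (M.mem h) (fun om => M.vis h om ∧ j ≤ M.cnt h om) ≤ (100 / 101 : ℝ) ^ j + A * Ex (M.mem h) (M.psi h) := by
  have h1 := Mach.claim L hA0 _ h rfl (fun _ => none) j hI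
  have h2 : uni (M.mem h) (fun _ => none) = M.mem h := by
    funext q
    unfold uni
    cases M.mem h q <;> rfl
  rw [h2] at h1
  have h3 : (100 / 101 : ℝ) ^ j * Real.sqrt (Pr (M.mem h) (M.vis h)) ≤ (100 / 101 : ℝ) ^ j * 1 :=
    mul_le_mul_of_nonneg_left (Real.sqrt_le_one.2 (Pr_le_one _ _)) (by positivity)
  have h4 : Pr (M.mem h) (fun om => M.vis h om ∧ j ≤ M.cnt h om) = Pr (M.mem h) (M.ev h j) := rfl
  rw [h4]
  linarith

end Pool.Agent.W_a4f561_P73
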