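import Pool.Agent.W_a4f561_h26.Bas

/-!
MP_a4f561_co, polylog (helper1's proof, section 2): definitions. Law without sticky rule, paths in a cell, the events `E_w`,
bad D-steps (helper73).
-/

set_option autoImplicit false

namespace Pool.Agent.W_a4f561_P73

open Pool.Agent.W_a4f561_h26

variable {V : Type}

/-- The random forest of the star coins (no sticky rule): `σ.S` is the drawn set `U`. -/
noncomputable def law (G : Bars V) (σ : St V) (ω : V × Bool → Bool) (v : V) : V := by
  classical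
  exact if v ∈ σ.S ∪ σ.Dec then σ.pi v else if ω (G.coin v) = true then G.zz v else G.oo v

/-- What is needed of a state. -/
structure Base (G : Bars V) (σ : St V) : Prop where
  bot_mem : G.bot ∈ σ.S
  top_mem : G.top ∈ σ.S
  ch : Ch G σ.pi
  cl : ∀ v ∈ σ.S, σ.pi v ∈ σ.S

/-- A declared vertex goes to `U` or its upper neighbour outlives its lower one. -/
def HD (G : Bars V) (σ : St V) : Prop :=
  ∀ u ∈ σ.Dec, u ∉ σ.S → σ.pi u = G.lo u → G.lo u ∉ σ.S → G.t (G.lo u) < G.t (G.up u)

/-- The route of `x` in `π` is a path in `D` up to `w`. -/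
def PD (G : Bars V) (D : Set V) (π : V → V) (x w : V) : Prop :=
  Orb π x w ∧ ∀ v, Orb π x v → G.t v ≤ G.t w → v ∈ D

/-- The route of `x` in `π` leaves `D` in `E`. -/
def LV (G : Bars V) (D E : Set V) (π : V → V) (x : V) : Prop :=
  ∃ e ∈ E, e ∉ D ∧ Orb π x e ∧ ∀ v, Orb π x v → G.t v < G.t e → v ∈ D

/-- A D-step `v → lo v` of the route of `z` inside `D`. -/
def DS (G : Bars V) (σ : St V) (D : Set V) (ω : V × Bool → Bool) (z v : V) : Prop :=
  PD G D (law G σ ω) z v ∧ law G σ ω v = G.lo v ∧ G.lo v ∈ D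

/-- `h` is a short head of the D-step `v → lo v` (seen before the first long head). -/
def Sh (G : Bars V) (v h : V) : Prop := ∃ τ, G.t v < τ ∧ τ < G.tau1 v ∧ h = G.ub (G.lo v) τ

/-- The event `E_w(x,y)`: the route of `y` meets every path in `D` from `x` to `w` in time, and is in `D` before. -/
def Ew (G : Bars V) (σ : St V) (D : Set V) (w x y : V) (ω : V × Bool → Bool) : Prop :=
  ∀ π, Fin' G σ π → PD G D π x w → ∃ u, Orb π x u ∧ G.t u ≤ G.t w ∧ Orb (law G σ ω) y u ∧
    ∀ v, Orb (law G σ ω) y v → G.t v < G.t u → v ∈ D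

/-- Nothing outside of `D` is strictly between two paths in `D` with the same end (after time `s`). -/
def LENS (G : Bars V) (σ : St V) (D : Set V) (s : ℕ) : Prop :=
  ∀ τ, s < τ → ∀ (x z x' w : V) (π π' : V → V), Fin' G σ π → Fin' G σ π' → G.al x τ → G.al z τ → G.al x' τ →
    G.r x < G.r z → G.r z < G.r x' → PD G D π x w → PD G D π' x' w → z ∈ D

section pr

variable [Fintype V] [DecidableEq V]

/-- `K_w(x,y)`. -/
noncomputable def Kw (G : Bars V) (σ : St V) (D : Set V) (w x y : V) : ℝ :=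
  pr (fun _ => none) (Ew G σ D w x y)

/-- The D-step at `v` is beta-bad for `w`. -/
def badB (G : Bars V) (σ : St V) (D : Set V) (δ : ℝ) (ω : V × Bool → Bool) (z w v : V) : Prop :=
  DS G σ D ω z v ∧ v ∉ σ.Dec ∧ G.zz v = G.lo v ∧ ∃ h, Sh G v h ∧ Kw G σ D w (G.lo v) h < δ

/-- The D-step at `v` is alpha-bad for `w`. -/
def badA (G : Bars V) (σ : St V) (D : Set V) (δ : ℝ) (ω : V × Bool → Bool) (z w v : V) : Prop :=
  DS G σ D ω z v ∧ (∀ v', DS G σ D ω z v' → G.t v' < G.t v → G.flh v' ≠ G.flh v) ∧ ¬ fb G σ v ∧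
    Kw G σ D w (G.lo v) (G.flh v) < δ

/-- The D-step at `v` is bad for `w`. -/
def bad (G : Bars V) (σ : St V) (D : Set V) (δ : ℝ) (ω : V × Bool → Bool) (z w v : V) : Prop :=
  badB G σ D δ ω z w v ∨ badA G σ D δ ω z w v

/-- The number of bad D-steps before `w`. -/
noncomputable def bcnt (G : Bars V) (σ : St V) (D : Set V) (δ : ℝ) (ω : V × Bool → Bool) (z w : V) : ℕ :=
  Set.ncard {v | G.t v < G.t w ∧ bad G σ D δ ω z w v}

end pr

end Pool.Agent.W_a4f561_P73
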