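import Pool.Agent.W_a4f561_P73.PInst

/-!
MP_a4f561_co, polylog, section 2: the harm lemma with the additive functional (helper73).
-/

set_option autoImplicit false

namespace Pool.Agent.W_a4f561_P73

open Pool.Agent.W_a4f561_h26 Pool.Agent.W_a4f561_E
open Pool.Agent.W_a4f561_E73 (zz_oo zz_ne_oo t_lt_zz lo_ne_up coin_lo_ne_blw coin_eq_blw orb_next orb_of_next orb_lt
  iter_mono orb_first Ext tau1_up)

variable {V : Type} [Fintype V] [DecidableEq V] {G : Bars V} {σ : St V} {D : Set V} {z w : V} {δ : ℝ}

theorem psi_nonneg (ω : V × Bool → Bool) : 0 ≤ psi G σ D w δ ω := by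
  classical
  unfold psi
  exact Finset.sum_nonneg fun p _ => by split_ifs <;> norm_num

/-- The functional dominates the probability of every event with small `K`. -/
theorem Pr_le_psi (p : V × Bool → Option Bool) {x y : V} (h : Kw G σ D w x y < δ) :
    Pr p (Ew G σ D w x y) ≤ Ex p (psi G σ D w δ) := by
  classical
  unfold Pr
  refine Ex_mono p fun ω _ => ?_
  unfold psi
  have h1 := Finset.single_le_sum (f := fun q : V × V => if Ew G σ D w q.1 q.2 ω then (1 : ℝ) else 0)
    (s := (Finset.univ : Finset (V × V)).filter (fun q => Kw G σ D w q.1 q.2 < δ))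
    (fun q _ => by split_ifs <;> norm_num) (Finset.mem_filter.2 ⟨Finset.mem_univ (x, y), h⟩)
  exact h1

/-- The functional at the start. -/
theorem psi_start (hδ : 0 ≤ δ) : Ex (fun _ => none) (psi G σ D w δ) ≤ (Fintype.card V : ℝ) ^ 2 * δ := by
  classical
  unfold psi
  rw [Ex_sum]
  have h1 : ∀ p ∈ (Finset.univ : Finset (V × V)).filter (fun p => Kw G σ D w p.1 p.2 < δ),
      Ex (fun _ => none) (fun ω => if Ew G σ D w p.1 p.2 ω then (1 : ℝ) else 0) ≤ δ := by
    intro p hp
    have h2 := (Finset.mem_filter.1 hp).2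
    have h3 : Kw G σ D w p.1 p.2 = Ex (fun _ => none) (fun ω => if Ew G σ D w p.1 p.2 ω then (1 : ℝ) else 0) := by
      unfold Kw
      rw [pr_eq]
      rfl
    rw [← h3]
    exact h2.le
  refine le_trans (Finset.sum_le_sum h1) ?_
  rw [Finset.sum_const, nsmul_eq_mul]
  refine mul_le_mul_of_nonneg_right ?_ hδ
  have h4 : ((Finset.univ : Finset (V × V)).filter (fun p => Kw G σ D w p.1 p.2 < δ)).card ≤ Fintype.card V ^ 2 := by
    refine (Finset.card_filter_le _ _).trans ?_
    rw [Finset.card_univ, Fintype.card_prod, pow_two]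
  exact_mod_cast h4

/-- From the branch to the whole. -/
theorem branch_le {U : V × Bool → Option Bool} {q : V × Bool} (hq : U q = none) (b : Bool)
    (A : (V × Bool → Bool) → Prop) : Pr (asg U q b) A ≤ 2 * Pr U A := by
  have h1 := Pr_split hq A
  have h2 := Pr_nonneg (asg U q true) A
  have h3 := Pr_nonneg (asg U q false) A
  cases b
  · linarith
  · linarith

/-- The two cases for the term of the event `E`. -/
theorem term_cases {U : V × Bool → Option Bool} {q : V × Bool} (hq : U q = none) (b : Bool) {x y : V}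
    (hK : Kw G σ D w x y < δ) (f : ℝ) :
    f ≤ 2000 * Ex U (psi G σ D w δ) ∨ Pr (asg U q b) (Ew G σ D w x y) ≤ 1 / 1000 * f := by
  by_cases h : Pr (asg U q b) (Ew G σ D w x y) ≤ 1 / 1000 * f
  · exact Or.inr h
  · left
    push Not at h
    have h1 := branch_le hq b (Ew G σ D w x y)
    have h2 := Pr_le_psi U hK
    linarith

/-- The inequality at a bad step. -/
theorem harm_ineq (hb : Base0 G σ) (hDS : ∀ u ∈ D, u ∉ σ.S) (hDD : HD G σ) {s : ℕ} (hL : LENS G σ D s)
    (hs : ∀ u ∈ D, s < G.t u)
    {ω : V × Bool → Bool} {v : V} {g : V × Bool → Option Bool} {d : Bool}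
    (hI : MI G σ D z (ω, v) g) (hvD : v ∈ D) (ha : v ∉ σ.Dec)
    (hu : uni (pmem G σ D ω z v) g (G.coin v) = none)
    (hh : bad G σ D δ (Function.update ω (G.coin v) d) z w v) (f : ℝ) :
    (if d = true then G.zz v else G.oo v) = G.lo v ∧
    (f ≤ 2000 * Ex (uni (pmem G σ D ω z v) g) (psi G σ D w δ) ∨
      Pr (asg (uni (pmem G σ D ω z v) g) (G.coin v) (!d)) (fun ω => PD G D (law G σ ω) (G.up v) w) ≤ 1 / 1000 * f ∨
      ∃ r, r ≠ G.coin v ∧ uni (pmem G σ D ω z v) g r = none ∧ r = G.blw (G.flh v) ∧
        Pr (asg (uni (pmem G σ D ω z v) g) (G.coin v) (!d)) (fun ω => PD G D (law G σ ω) (G.up v) w) ≤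
          Pr (asg (asg (uni (pmem G σ D ω z v) g) (G.coin v) d) r false) (fun ω => PD G D (law G σ ω) (G.lo v) w) / 2 +
            1 / 1000 * f) := by
  have hS := hDS v hvD
  have hv := inn_of_notS hb hS
  obtain ⟨hag, hor, hlam, _, _⟩ := upd (b := d) hb hDS hI hvD ha (Or.inl hu)
  have hd := ds_of_bad hh
  have hx := hDS _ hd.2.2
  have hxi := inn_of_notS hb hx
  have hlo : (if d = true then G.zz v else G.oo v) = G.lo v := by rw [← hlam]; exact hd.2.1
  have hmem := hag.pmem hb (u := v) le_rfl
  have hsv := hs v hvD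
  set U := uni (pmem G σ D ω z v) g with hU
  refine ⟨hlo, ?_⟩
  rcases zz_oo G v with ⟨h1, h2, h3⟩ | ⟨h1, h2, h3⟩
  · -- the longer-lived neighbour is the first long head
    have hfl := (tau1_up hv hxi h1).2
    rcases hh with hh | hh
    · exfalso
      have h4 := hh.2.2.1
      rw [h2] at h4
      exact lo_ne_up hv h4.symm
    · have h4 := hh.2.2.2
      rw [hfl] at h4
      rcases term_cases hu (!d) h4 f with h5 | h5
      · exact Or.inl h5
      · right
        left
        exact le_trans (Pr_mono _ fun ω' _ h6 => ew_A h6) h5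
  · -- the longer-lived neighbour is `lo v`
    have hdt : d = true := by
      cases d with
      | true => rfl
      | false =>
        exfalso
        simp only [Bool.false_eq_true, if_false] at hlo
        rw [h3] at hlo
        exact lo_ne_up hv hlo.symm
    subst hdt
    rw [Bool.not_true]
    have hindx : IndP (G.coin v) (fun ω => PD G D (law G σ ω) (G.lo v) w) := ind_pd hb (by
      show G.t (G.zz v) ≤ _
      rw [h2])
    rcases hh with hh | hh
    · -- beta
      obtain ⟨_, _, _, h, h4, h5⟩ := hh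
      rcases term_cases hu false h5 f with h6 | h6
      · exact Or.inl h6
      · right
        left
        refine le_trans (Pr_mono _ fun ω' ho h7 => ?_) h6
        have hc : ω' (G.coin v) = false := ho _ _ (asg_same _ _ _)
        exact ew_B hb hDD hDS hL hsv hS h2 hx hc h7 h4
    · -- alpha
      obtain ⟨_, hnw, hfb, hK⟩ := hh
      rcases term_cases hu false hK f with h6 | h6
      · exact Or.inl h6
      · right
        right
        have hty : G.t v < G.t (G.flh v) := by
          have h5 := (tau1_spec G hv hxi).2.2.1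
          have h6 := t_lo G hv
          omega
        have hrm : pmem G σ D ω z v (G.blw (G.flh v)) = none := by
          rw [hmem]
          exact unk_blw hb hDS hd.1 hnw hty
        have hrg : g (G.blw (G.flh v)) = none := by
          cases hc : g (G.blw (G.flh v)) with
          | none => rfl
          | some b =>
            exfalso
            obtain ⟨v', h5, h6, h7⟩ := hI.2 _ (by rw [hc]; exact Option.some_ne_none _)
            exact hnw v' ((hag.ds hb h6).1 h5) h6 (congrArg Prod.fst h7).symm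
        have hUr : U (G.blw (G.flh v)) = none := uni_eq_none.2 ⟨hrm, hrg⟩
        have hrq : G.blw (G.flh v) ≠ G.coin v := (coin_lo_ne_blw hv h2 _).symm
        refine ⟨G.blw (G.flh v), hrq, hUr, rfl, ?_⟩
        set r := G.blw (G.flh v) with hr
        have e1 : Pr (asg U (G.coin v) false) (fun ω => PD G D (law G σ ω) (G.up v) w) ≤
            Pr (asg U (G.coin v) false) (fun ω => Ew G σ D w (G.lo v) (G.flh v) ω ∨
              (ω r = false ∧ PD G D (law G σ ω) (G.lo v) w)) := by
          refine Pr_mono _ fun ω' ho h5 => ?_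
          have hc : ω' (G.coin v) = false := ho _ _ (asg_same _ _ _)
          exact ew_C hb hDD hDS hL hsv hS h2 hx hc h5 hfb
        have e2 := Pr_or_le (asg U (G.coin v) false)
          (fun ω => Ew G σ D w (G.lo v) (G.flh v) ω)
          (fun ω => ω r = false ∧ PD G D (law G σ ω) (G.lo v) w)
        have hind2 : IndP (G.coin v) (fun ω => ω r = false ∧ PD G D (law G σ ω) (G.lo v) w) := by
          intro ω' b
          show (Function.update ω' (G.coin v) b r = false ∧
            PD G D (law G σ (Function.update ω' (G.coin v) b)) (G.lo v) w) ↔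
              (ω' r = false ∧ PD G D (law G σ ω') (G.lo v) w)
          rw [Function.update_of_ne hrq]
          exact and_congr_right fun _ => hindx ω' b
        have e4 : Pr (asg U (G.coin v) false) (fun ω => ω r = false ∧ PD G D (law G σ ω) (G.lo v) w) =
            Pr (asg U (G.coin v) true) (fun ω => ω r = false ∧ PD G D (law G σ ω) (G.lo v) w) := by
          rw [Pr_ind U hind2, Pr_ind U hind2]
        have e5 : asg U (G.coin v) true r = none := by rw [asg_ne _ _ hrq, hUr]
        have e6 := Pr_split e5 (fun ω => ω r = false ∧ PD G D (law G σ ω) (G.lo v) w)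
        have e7 : Pr (asg (asg U (G.coin v) true) r true)
            (fun ω => ω r = false ∧ PD G D (law G σ ω) (G.lo v) w) = 0 := by
          refine Pr_false _ fun ω' ho h5 => ?_
          have h6 : ω' r = true := ho _ _ (asg_same _ _ _)
          rw [h5.1] at h6
          exact Bool.false_ne_true h6
        have e8 : Pr (asg (asg U (G.coin v) true) r false) (fun ω => ω r = false ∧ PD G D (law G σ ω) (G.lo v) w) =
            Pr (asg (asg U (G.coin v) true) r false) (fun ω => PD G D (law G σ ω) (G.lo v) w) := by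
          refine Pr_congr _ fun ω' ho => ?_
          exact ⟨fun h5 => h5.2, fun h5 => ⟨ho _ _ (asg_same _ _ _), h5⟩⟩
        rw [e7, e8] at e6
        rw [e4, e6] at e2
        linarith

/-- The laws of the machine. -/
theorem mc_law (hb : Base0 G σ) (hDS : ∀ u ∈ D, u ∉ σ.S) (hDD : HD G σ) {s : ℕ} (hL : LENS G σ D s)
    (hs : ∀ u ∈ D, s < G.t u) : (mc G σ D z w δ).Law (MI G σ D z) 2000 := by
  have hstop : ∀ {h : (V × Bool → Bool) × V}, ¬ (mc G σ D z w δ).stop h → h.2 ∈ D ∧ G.t h.2 < G.t w := by
    intro h hs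
    constructor
    · by_contra h1
      exact hs (Or.inl h1)
    · by_contra h1
      exact hs (Or.inr (not_lt.1 h1))
  have hask : ∀ {h : (V × Bool → Bool) × V} {q : V × Bool}, (mc G σ D z w δ).ask h = some q →
      h.2 ∉ σ.Dec ∧ q = G.coin h.2 := by
    intro h q hq
    by_cases ha : h.2 ∈ σ.Dec
    · have := mc_ask_none (G := G) (D := D) (z := z) (w := w) (δ := δ) (ω := h.1) ha
      rw [Prod.mk.eta] at this
      rw [this] at hq
      exact absurd hq.symm (Option.some_ne_none _)
    · have := mc_ask_some (G := G) (D := D) (z := z) (w := w) (δ := δ) (ω := h.1) ha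
      rw [Prod.mk.eta] at this
      rw [this] at hq
      exact ⟨ha, (Option.some.inj hq).symm⟩
  have hnask : ∀ {h : (V × Bool → Bool) × V}, (mc G σ D z w δ).ask h = none → h.2 ∈ σ.Dec := by
    intro h hq
    by_contra ha
    have := mc_ask_some (G := G) (D := D) (z := z) (w := w) (δ := δ) (ω := h.1) ha
    rw [Prod.mk.eta] at this
    rw [this] at hq
    exact Option.some_ne_none _ hq
  refine
    { rk_det := ?_
      rk_ask := ?_
      cnt_stop := ?_
      mem_det := ?_
      mem_ask := ?_
      vis_step := ?_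
      cnt_yes := ?_
      cnt_no := ?_
      psi_nonneg := fun _ ω => psi_nonneg ω
      psi_step := fun _ _ _ _ _ _ => le_rfl
      det := ?_
      known := ?_
      new := ?_
      harm := ?_ }
  · -- rk_det
    rintro ⟨ω, v⟩ g hI hs hq
    obtain ⟨h1, h2⟩ := hstop hs
    have ha := hnask hq
    rw [mc_nxt_nask ha]
    show G.N + 3 - G.t (law G σ ω v) < G.N + 3 - G.t v
    have h4 := inn_of_notS hb (hDS v h1)
    have h3 := t_lt_ch (law_ch hb ω) h4
    have h5 := G.t_in v h4.1 h4.2
    omega
  · -- rk_ask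
    rintro ⟨ω, v⟩ g q b hI hs hq hu
    obtain ⟨h1, h2⟩ := hstop hs
    obtain ⟨ha, rfl⟩ := hask hq
    have hf := upd (b := b) hb hDS hI h1 ha hu
    rw [mc_nxt_ask ha]
    show G.N + 3 - G.t (if b = true then G.zz v else G.oo v) < G.N + 3 - G.t v
    have h4 := inn_of_notS hb (hDS v h1)
    have h3 := t_lt_ch (law_ch hb (Function.update ω (G.coin v) b)) h4
    rw [hf.2.2.1] at h3
    have h5 := G.t_in v h4.1 h4.2
    omega
  · -- cnt_stop
    rintro ⟨ω, v⟩ g ω' hI hs ho
    by_cases hv : v ∈ D
    · rw [mcnt_D hv, Set.ncard_eq_zero (Set.toFinite _), Set.eq_empty_iff_forall_notMem]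
      rintro u ⟨h1, h2, _⟩
      rcases hs with hs | hs
      · exact hs hv
      · simp only at hs
        omega
    · exact mcnt_out hv
  · -- mem_det
    rintro ⟨ω, v⟩ g hI hs hq
    obtain ⟨h1, h2⟩ := hstop hs
    have ha := hnask hq
    rw [mc_nxt_nask ha]
    show pmem G σ D ω z (law G σ ω v) = pmem G σ D ω z v
    funext κ
    rcases pmem_next hb hDS (hI.1.pd h1) κ with h3 | h3
    · exact absurd ha h3.1
    · exact h3.2
  · -- mem_ask
    rintro ⟨ω, v⟩ g q b hI hs hq hu
    obtain ⟨h1, h2⟩ := hstop hs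
    obtain ⟨ha, rfl⟩ := hask hq
    have hf := upd (b := b) hb hDS hI h1 ha hu
    rw [mc_nxt_ask ha]
    exact hf.2.2.2.1
  · -- vis_step
    rintro ⟨ω, v⟩ g ω' hI hs ho
    obtain ⟨h1, h2⟩ := hstop hs
    show PD G D (law G σ ω') v w ↔ PD G D (law G σ ω') ((mc G σ D z w δ).stp ω' (ω, v)).2 w
    rw [mstp_snd (hDS v h1)]
    constructor
    · intro h3
      refine PD.next h3 fun e => ?_
      rw [e] at h2
      exact lt_irrefl _ h2
    · exact PD.of_next (law_ch hb ω') h1
  · -- cnt_yes
    rintro ⟨ω, v⟩ g ω' hI hs ho hh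
    obtain ⟨h1, h2⟩ := hstop hs
    obtain ⟨_, h3⟩ := cons hb hI h1 ho
    rw [mhm_iff hb hDS hDD hI h1 ho] at hh
    rw [mcnt_D h1, mcnt_nx h3 (mstp_snd (hDS v h1))]
    exact (mcnt_step hb hDS h3 h2).1 hh
  · -- cnt_no
    rintro ⟨ω, v⟩ g ω' hI hs ho hh
    obtain ⟨h1, h2⟩ := hstop hs
    obtain ⟨_, h3⟩ := cons hb hI h1 ho
    rw [mhm_iff hb hDS hDD hI h1 ho] at hh
    rw [mcnt_D h1, mcnt_nx h3 (mstp_snd (hDS v h1))]
    exact (mcnt_step hb hDS h3 h2).2 hh
  · -- det
    rintro ⟨ω, v⟩ g hI hs hq
    obtain ⟨h1, h2⟩ := hstop hs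
    have ha := hnask hq
    refine ⟨fun h3 => h3.1 ha, ?_⟩
    rw [mc_nxt_nask ha]
    refine ⟨PB.step hb (hI.1.pd h1), fun κ hκ => ?_⟩
    obtain ⟨v', h3, h4, h5⟩ := hI.2 κ hκ
    exact ⟨v', h3, h4.trans (t_lt_ch (law_ch hb ω) (inn_of_notS hb (hDS v h1))), h5⟩
  · -- known
    rintro ⟨ω, v⟩ g q b hI hs hq hu
    obtain ⟨h1, h2⟩ := hstop hs
    obtain ⟨ha, rfl⟩ := hask hq
    have hf := upd (b := b) hb hDS hI h1 ha (Or.inr hu)
    constructor
    · rintro ⟨_, h3⟩
      simp only at h3
      obtain ⟨h4, h5⟩ := bad_unk hb hDS hDD h3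
      rw [← hf.1.pmem hb le_rfl] at h4
      have h6 : g (G.coin v) = some b := by
        have h7 := uni_of_none g h4
        rw [← h7]
        exact hu
      obtain ⟨v', h7, h8, h9⟩ := hI.2 (G.coin v) (by rw [h6]; exact Option.some_ne_none _)
      exact h5 v' ((hf.1.ds hb h8).1 h7) h8 h9
    · rw [mc_nxt_ask ha]
      exact hf.2.2.2.2
  · -- new
    rintro ⟨ω, v⟩ g q b hI hs hq hu
    obtain ⟨h1, h2⟩ := hstop hs
    obtain ⟨ha, rfl⟩ := hask hq
    have hf := upd (b := b) hb hDS hI h1 ha (Or.inl hu)
    rw [mc_nxt_ask ha]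
    exact hf.2.2.2.2
  · -- harm
    rintro ⟨ω, v⟩ g q d hI hst hq hun hh
    obtain ⟨h1, h2⟩ := hstop hst
    obtain ⟨ha, rfl⟩ := hask hq
    have hv := inn_of_notS hb (hDS v h1)
    have hu := fun b => upd (b := b) hb hDS hI h1 ha (Or.inl hun)
    obtain ⟨h3, h4⟩ := harm_ineq hb hDS hDD hL hs hI h1 ha hun hh.2
      (Pr (uni (pmem G σ D ω z v) g) (fun ω => PD G D (law G σ ω) v w))
    have hnd : (if (!d) = true then G.zz v else G.oo v) = G.up v := by
      rcases zz_oo G v with ⟨_, h5, h6⟩ | ⟨_, h5, h6⟩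
      · cases d
        · simp only [Bool.not_false, if_true]
          exact h5
        · simp only [if_true] at h3
          rw [h5] at h3
          exact absurd h3.symm (lo_ne_up hv)
      · cases d
        · simp only [Bool.false_eq_true, if_false] at h3
          rw [h6] at h3
          exact absurd h3.symm (lo_ne_up hv)
        · simp only [Bool.not_true, Bool.false_eq_true, if_false]
          exact h6
    have hmem : ∀ b, uni (pmem G σ D (Function.update ω (G.coin v) b) z (if b = true then G.zz v else G.oo v)) g =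
        asg (uni (pmem G σ D ω z v) g) (G.coin v) b := fun b => by
      rw [(hu b).2.2.2.1, uni_asg_left]
    constructor
    · rintro ⟨_, h5⟩
      have h6 := (ds_of_bad h5).2.1
      simp only at h6
      rw [(hu (!d)).2.2.1, hnd] at h6
      exact lo_ne_up hv h6.symm
    · rw [mc_nxt_ask ha, mc_nxt_ask ha]
      show (Pr (uni (pmem G σ D ω z v) g) (fun ω => PD G D (law G σ ω) v w) ≤
            2000 * Ex (uni (pmem G σ D ω z v) g) (psi G σ D w δ) ∨
          Pr (uni (pmem G σ D (Function.update ω (G.coin v) d) z (if d = true then G.zz v else G.oo v)) g)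
            (fun ω => PD G D (law G σ ω) (if d = true then G.zz v else G.oo v) w) = 0 ∨
          Pr (uni (pmem G σ D (Function.update ω (G.coin v) (!d)) z (if (!d) = true then G.zz v else G.oo v)) g)
            (fun ω => PD G D (law G σ ω) (if (!d) = true then G.zz v else G.oo v) w) ≤
              1 / 1000 * Pr (uni (pmem G σ D ω z v) g) (fun ω => PD G D (law G σ ω) v w) ∨
          ∃ r, r ≠ G.coin v ∧ uni (pmem G σ D ω z v) g r = none ∧
            Pr (uni (pmem G σ D (Function.update ω (G.coin v) (!d)) z (if (!d) = true then G.zz v else G.oo v)) g)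
              (fun ω => PD G D (law G σ ω) (if (!d) = true then G.zz v else G.oo v) w) ≤
            Pr (uni (pmem G σ D (Function.update ω (G.coin v) d) z (if d = true then G.zz v else G.oo v))
              (asg g r false)) (fun ω => PD G D (law G σ ω) (if d = true then G.zz v else G.oo v) w) / 2 +
                1 / 1000 * Pr (uni (pmem G σ D ω z v) g) (fun ω => PD G D (law G σ ω) v w) ∧
            ∀ b, MI G σ D z (Function.update ω (G.coin v) d, if d = true then G.zz v else G.oo v) (asg g r b))
      rw [hmem d, hmem (!d)]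
      rcases h4 with h4 | h4 | ⟨r, h5, h6, h7, h8⟩
      · exact Or.inl h4
      · right
        right
        left
        rw [hnd]
        exact h4
      · right
        right
        right
        refine ⟨r, h5, h6, ?_, fun b => ?_⟩
        · rw [hnd, uni_asg_right g false (by
            rw [(hu d).2.2.2.1, asg_ne _ _ h5]
            exact (uni_eq_none.1 h6).1), hmem d, h3]
          exact h8
        · obtain ⟨h9, h11⟩ := (hu d).2.2.2.2
          refine ⟨h9, fun κ hκ => ?_⟩
          by_cases h12 : κ = r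
          · refine ⟨v, ds_of_bad hh.2, ?_, h12.trans h7⟩
            simp only
            rw [← (hu d).2.2.1]
            exact t_lt_ch (law_ch hb _) hv
          · rw [asg_ne _ _ h12] at hκ
            exact h11 κ hκ

/-- HARM LEMMA in a cell. -/
theorem harm2 (G : Bars V) (σ : St V) (D : Set V) (hb : Base0 G σ) (hDS : ∀ u ∈ D, u ∉ σ.S) (hDD : HD G σ) {s : ℕ}
    (hL : LENS G σ D s) (hs : ∀ u ∈ D, s < G.t u) {z w : V} (hz : z ∈ D) {δ : ℝ} (hδ : 0 ≤ δ) (j : ℕ) :
    pr (fun _ => none) (fun ω => PD G D (law G σ ω) z w ∧ j ≤ bcnt G σ D δ ω z w) ≤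
      (100 / 101 : ℝ) ^ j + 2000 * (Fintype.card V : ℝ) ^ 2 * δ := by
  classical
  have L := mc_law (z := z) (w := w) (δ := δ) hb hDS hDD hL hs
  have hI0 : MI G σ D z (fun _ => false, z) (fun _ => none) := by
    refine ⟨⟨orb_refl _ _, fun u h1 h2 => ?_⟩, fun κ h => absurd rfl h⟩
    have := orb_t (law_ch hb (fun _ => false)) h1
    simp only at h2
    omega
  have h1 := Mach.harm_le L (by norm_num) hI0 j
  have h2 : (mc G σ D z w δ).mem (fun _ => false, z) = fun _ => none := by
    show pmem G σ D (fun _ => false) z z = _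
    funext κ
    rcases pmem_cases G σ D (fun _ => false) z z κ with ⟨v, h3, h4, _⟩ | ⟨_, h3⟩
    · have := orb_t (law_ch hb _) h3.1
      omega
    · exact h3
  rw [h2] at h1
  rw [pr_eq]
  have h3 := psi_start (G := G) (σ := σ) (D := D) (w := w) hδ
  have h4 : Pr (fun _ => none) (fun ω => PD G D (law G σ ω) z w ∧ j ≤ bcnt G σ D δ ω z w) ≤
      Pr (fun _ => none) (fun ω => (mc G σ D z w δ).vis (fun _ => false, z) ω ∧
        j ≤ (mc G σ D z w δ).cnt (fun _ => false, z) ω) := by
    refine Pr_mono _ fun ω ho h3 => ?_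
    refine ⟨h3.1, ?_⟩
    rw [mcnt_D hz]
    refine le_trans h3.2 ?_
    unfold bcnt
    refine Set.ncard_le_ncard (fun u hu => ?_) (Set.toFinite _)
    exact ⟨orb_t (law_ch hb ω) (ds_of_bad hu.2).1.1, hu.1, hu.2⟩
  have h5 : (2000 : ℝ) * Ex (fun _ => none) ((mc G σ D z w δ).psi (fun _ => false, z)) ≤
      2000 * (Fintype.card V : ℝ) ^ 2 * δ := by
    have h6 : Ex (fun _ => none) ((mc G σ D z w δ).psi (fun _ => false, z)) =
        Ex (fun _ => none) (psi G σ D w δ) := rfl
    rw [h6]
    linarith
  linarith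

end Pool.Agent.W_a4f561_P73
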