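import Pool.Agent.W_a4f561_P73.Sq73
import Pool.Agent.W_a4f561_P73.Mach73
import Pool.Agent.W_a4f561_E.Inst73

/-!
MP_a4f561_co, polylog, section 2: the machine of a route in a cell, and its laws except for the harm inequality (helper73).
-/

set_option autoImplicit false

namespace Pool.Agent.W_a4f561_P73

open Pool.Agent.W_a4f561_h26 Pool.Agent.W_a4f561_E
open Pool.Agent.W_a4f561_E73 (zz_oo zz_ne_oo t_lt_zz lo_ne_up coin_lo_ne_blw coin_eq_blw orb_next orb_of_next orb_lt
  iter_mono orb_first Ext tau1_up)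

section known

variable {V : Type} {G : Bars V} {σ : St V} {D : Set V}

/-- The value of the coin at a D-step. -/
theorem ds_coin (hb : Base0 G σ) {ω : V × Bool → Bool} {z v : V} (h : DS G σ D ω z v) (hS : v ∉ σ.S) (hD : v ∉ σ.Dec) :
    (G.zz v = G.lo v → ω (G.coin v) = true) ∧ (G.zz v = G.up v → ω (G.coin v) = false) := by
  have hv := inn_of_notS hb hS
  have hne := zz_ne_oo (G := G) hv
  constructor
  · intro hz
    cases hc : ω (G.coin v) with
    | true => rfl
    | false =>
      exfalso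
      have h1 := law_false hS hD hc
      rw [h.2.1, ← hz] at h1
      exact hne h1
  · intro hz
    cases hc : ω (G.coin v) with
    | false => rfl
    | true =>
      exfalso
      have h1 := law_true hS hD hc
      rw [h.2.1, hz] at h1
      exact lo_ne_up hv h1

variable (hb : Base0 G σ) (hDS : ∀ u ∈ D, u ∉ σ.S)

include hb hDS

/-- A D-step without a forced barrier asks its coin. -/
theorem notDec_of_ds (hDD : HD G σ) {ω : V × Bool → Bool} {z v : V} (h : DS G σ D ω z v) (hf : ¬ fb G σ v) :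
    v ∉ σ.Dec := by
  obtain ⟨h1, h3, h4⟩ := h
  have h2 := hDS v h1.mem
  have h4' := hDS _ h4
  have hv := inn_of_notS hb h2
  intro h5
  rw [law_SD ω (Or.inr h5)] at h3
  have h6 := hDD v h5 h2 h3 h4'
  obtain ⟨h7, h8⟩ := tau1_up hv (inn_of_notS hb h4') h6
  exact hf ⟨v, h5, h2, h3, rfl, h7.symm, h8.symm⟩

/-- An accepted coin was not known before. -/
theorem acc_unk {ω : V × Bool → Bool} {z v : V} (h : PD G D (law G σ ω) z v) (hc : ω (G.coin v) = true) :
    pmem G σ D ω z v (G.coin v) = none := by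
  have hv := inn_of_notS hb (hDS v h.mem)
  rcases pmem_cases G σ D ω z v (G.coin v) with ⟨v', h1, h2, h3, h4, _⟩ | ⟨_, h1⟩
  · exfalso
    rw [← h4] at hc
    have h5 := law_true (hDS v' h1.mem) h3 hc
    have h6 : G.zz v' = G.zz v := congrArg Prod.fst h4
    have h7 := orb_lt (law_ch hb ω) h1.1 h.1 h2
    rw [h5, h6] at h7
    have h8 := orb_t (law_ch hb ω) h7
    have h9 := t_lt_zz hv
    omega
  · exact h1

/-- A rejected coin of the tokens from below belongs to a seen first long head. -/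
theorem rej_ds {ω : V × Bool → Bool} {z v v' y : V} (h : PD G D (law G σ ω) z v) (h' : PD G D (law G σ ω) z v')
    (ht : G.t v' < G.t v) (ha : v' ∉ σ.Dec) (hc : G.coin v' = G.blw y) (hω : ω (G.blw y) = false) :
    DS G σ D ω z v' ∧ G.flh v' = y := by
  have hv' := inn_of_notS hb (hDS v' h'.mem)
  obtain ⟨h1, h2⟩ := coin_eq_blw hv' hc
  rcases zz_oo G v' with ⟨h3, h4, h5⟩ | ⟨_, h4, _⟩
  · have h6 : law G σ ω v' = G.lo v' := by rw [law_false (hDS v' h'.mem) ha (by rw [hc]; exact hω), h5]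
    have h7 := orb_lt (law_ch hb ω) h'.1 h.1 ht
    rw [h6] at h7
    have h8 : G.lo v' ∈ D := h.2 _ (by rw [← h6]; exact orb_step h'.1) (orb_t (law_ch hb ω) h7)
    refine ⟨⟨h', h6, h8⟩, ?_⟩
    rw [(tau1_up hv' (inn_of_notS hb (hDS _ h8)) h3).2, h2]
  · exfalso
    rw [h4] at h1
    exact lo_ne_up hv' (h1.trans h2.symm)

/-- The coin of a new first long head is not known. -/
theorem unk_blw {ω : V × Bool → Bool} {z v y : V}
    (h : PD G D (law G σ ω) z v) (hn : ∀ v', DS G σ D ω z v' → G.t v' < G.t v → G.flh v' ≠ y)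
    (hy : G.t v < G.t y) : pmem G σ D ω z v (G.blw y) = none := by
  rcases pmem_cases G σ D ω z v (G.blw y) with ⟨v', h1, h2, h3, h4, _⟩ | ⟨_, h1⟩
  · exfalso
    cases hc : ω (G.blw y) with
    | false =>
      obtain ⟨h5, h6⟩ := rej_ds hb hDS h h1 h2 h3 h4 hc
      exact hn v' h5 h2 h6
    | true =>
      have h5 := law_true (hDS v' h1.mem) h3 (by rw [h4]; exact hc)
      have h6 : G.zz v' = y := congrArg Prod.fst h4
      have h7 := orb_lt (law_ch hb ω) h1.1 h.1 h2
      rw [h5, h6] at h7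
      have h8 := orb_t (law_ch hb ω) h7
      omega
  · exact h1

omit hb hDS in
/-- A part of the route which does not ask the coin of `q`. -/
theorem ind_pd [DecidableEq V] (hb : Base0 G σ) {y w : V} {q : V × Bool} (h : G.t q.1 ≤ G.t y) :
    IndP q (fun ω => PD G D (law G σ ω) y w) := by
  intro ω b
  have key : ∀ k, (law G σ (Function.update ω q b))^[k] y = (law G σ ω)^[k] y := by
    intro k
    induction k with
    | zero => rfl
    | succ k ih =>
      rw [Function.iterate_succ_apply', Function.iterate_succ_apply', ih]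
      refine law_congr fun hS _ => ?_
      rw [Function.update_of_ne]
      intro he
      have h1 : G.zz ((law G σ ω)^[k] y) = q.1 := congrArg Prod.fst he
      have h2 := t_lt_zz (inn_of_notS hb hS)
      have h3 : G.t y ≤ G.t ((law G σ ω)^[k] y) := orb_t (law_ch hb ω) ⟨k, rfl⟩
      rw [h1] at h2
      omega
  have ho : ∀ u, Orb (law G σ (Function.update ω q b)) y u ↔ Orb (law G σ ω) y u := by
    intro u
    constructor
    · rintro ⟨k, hk⟩
      exact ⟨k, by rw [← key k]; exact hk⟩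
    · rintro ⟨k, hk⟩
      exact ⟨k, by rw [key k]; exact hk⟩
  unfold PD
  simp only [ho]

/-- The memory after one more vertex. -/
theorem pmem_next {ω : V × Bool → Bool} {z v : V} (hv : PD G D (law G σ ω) z v) (κ : V × Bool) :
    (v ∉ σ.Dec ∧ κ = G.coin v ∧ pmem G σ D ω z (law G σ ω v) κ = some (ω κ)) ∨
    (¬ (v ∉ σ.Dec ∧ κ = G.coin v) ∧ pmem G σ D ω z (law G σ ω v) κ = pmem G σ D ω z v κ) := by
  classical
  have hi := inn_of_notS hb (hDS v hv.mem)
  have ht := t_lt_ch (law_ch hb ω) hi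
  by_cases h : v ∉ σ.Dec ∧ κ = G.coin v
  · left
    refine ⟨h.1, h.2, ?_⟩
    rw [h.2]
    exact pmem_asked hv ht h.1
  · right
    refine ⟨h, ?_⟩
    unfold pmem
    have e : (∃ v', PD G D (law G σ ω) z v' ∧ G.t v' < G.t (law G σ ω v) ∧ v' ∉ σ.Dec ∧ G.coin v' = κ) ↔
        (∃ v', PD G D (law G σ ω) z v' ∧ G.t v' < G.t v ∧ v' ∉ σ.Dec ∧ G.coin v' = κ) := by
      constructor
      · rintro ⟨v', h1, h2, h3, h4⟩
        refine ⟨v', h1, ?_, h3, h4⟩
        rcases lt_trichotomy (G.t v') (G.t v) with h5 | h5 | h5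
        · exact h5
        · exfalso
          have h6 := G.t_inj h5
          rw [h6] at h3 h4
          exact h ⟨h3, h4.symm⟩
        · exfalso
          have h6 := orb_t (law_ch hb ω) (orb_lt (law_ch hb ω) hv.1 h1.1 h5)
          omega
      · rintro ⟨v', h1, h2, h3⟩
        exact ⟨v', h1, by omega, h3⟩
    by_cases h1 : ∃ v', PD G D (law G σ ω) z v' ∧ G.t v' < G.t v ∧ v' ∉ σ.Dec ∧ G.coin v' = κ
    · rw [if_pos h1, if_pos (e.2 h1)]
    · rw [if_neg h1, if_neg fun h2 => h1 (e.1 h2)]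

omit hDS in
/-- The vertices before the next vertex are in `D`. -/
theorem PB.step {ω : V × Bool → Bool} {z v : V} (h : PD G D (law G σ ω) z v) :
    PB G D (law G σ ω) z (law G σ ω v) := by
  refine ⟨orb_step h.1, fun u h1 h2 => ?_⟩
  rcases Nat.lt_or_ge (G.t v) (G.t u) with h3 | h3
  · exfalso
    have h4 := orb_t (law_ch hb ω) (orb_lt (law_ch hb ω) h.1 h1 h3)
    omega
  · exact h.2 u h1 h3

end known

section machine

variable {V : Type} [Fintype V] [DecidableEq V] {G : Bars V} {σ : St V} {D : Set V}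

theorem ds_of_bad {ω : V × Bool → Bool} {z v w : V} {δ : ℝ} (h : bad G σ D δ ω z w v) : DS G σ D ω z v := by
  rcases h with h | h
  · exact h.1
  · exact h.1

theorem notDec_of_bad (hb : Base0 G σ) (hDS : ∀ u ∈ D, u ∉ σ.S) (hDD : HD G σ) {ω : V × Bool → Bool} {z v w : V} {δ : ℝ}
    (h : bad G σ D δ ω z w v) : v ∉ σ.Dec := by
  rcases h with h | h
  · exact h.2.1
  · exact notDec_of_ds hb hDS hDD h.1 h.2.2.1

/-- The coin of a bad step is not known, and it does not belong to a seen first long head. -/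
theorem bad_unk (hb : Base0 G σ) (hDS : ∀ u ∈ D, u ∉ σ.S) (hDD : HD G σ)
    {ω : V × Bool → Bool} {z v w : V} {δ : ℝ} (h : bad G σ D δ ω z w v) :
    pmem G σ D ω z v (G.coin v) = none ∧
      ∀ v', DS G σ D ω z v' → G.t v' < G.t v → G.coin v ≠ G.blw (G.flh v') := by
  have ha := notDec_of_bad hb hDS hDD h
  have hd := ds_of_bad h
  have hS := hDS v hd.1.mem
  have hv := inn_of_notS hb hS
  rcases zz_oo G v with ⟨h1, h2, _⟩ | ⟨_, h2, _⟩
  · have hx := inn_of_notS hb (hDS _ hd.2.2)
    have hf := (tau1_up hv hx h1).2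
    rcases h with h | h
    · exfalso
      have h3 := h.2.2.1
      rw [h2] at h3
      exact lo_ne_up hv h3.symm
    · have hnw := h.2.1
      rw [Pool.Agent.W_a4f561_E73.coin_up hv h2, ← hf]
      refine ⟨unk_blw hb hDS hd.1 hnw ?_, fun v' h3 h4 h5 => ?_⟩
      · rw [hf]
        exact t_up G hv
      · exact hnw v' h3 h4 (congrArg Prod.fst h5).symm
  · exact ⟨acc_unk hb hDS hd.1 ((ds_coin hb hd hS ha).1 h2), fun v' _ _ => coin_lo_ne_blw hv h2 _⟩

/-- Badness depends only on the coins asked up to `u`. -/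
theorem AgD.bad (hb : Base0 G σ) {z : V} {T : ℕ} {ω ω' : V × Bool → Bool}
    (h : AgD G σ D z T ω ω') {u : V} (hu : G.t u < T) (δ : ℝ) (w : V) :
    bad G σ D δ ω z w u ↔ bad G σ D δ ω' z w u := by
  unfold Pool.Agent.W_a4f561_P73.bad badB badA
  rw [h.ds hb hu]
  have e : (∀ v', DS G σ D ω z v' → G.t v' < G.t u → G.flh v' ≠ G.flh u) ↔
      (∀ v', DS G σ D ω' z v' → G.t v' < G.t u → G.flh v' ≠ G.flh u) := by
    constructor
    · intro h1 v h2 h3
      exact h1 v ((h.ds hb (by omega)).2 h2) h3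
    · intro h1 v h2 h3
      exact h1 v ((h.ds hb (by omega)).1 h2) h3
  rw [e]

open Classical in
/-- The number of pairs with small `K` for which `E` happens. -/
noncomputable def psi (G : Bars V) (σ : St V) (D : Set V) (w : V) (δ : ℝ) (ω : V × Bool → Bool) : ℝ :=
  ∑ p ∈ (Finset.univ : Finset (V × V)).filter (fun p => Kw G σ D w p.1 p.2 < δ), if Ew G σ D w p.1 p.2 ω then 1 else 0

open Classical in
/-- The machine of the route of `z` in `D` with target `w`. -/
noncomputable def mc (G : Bars V) (σ : St V) (D : Set V) (z w : V) (δ : ℝ) : Mach (V × Bool) where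
  H := (V × Bool → Bool) × V
  mem h := pmem G σ D h.1 z h.2
  rk h := G.N + 3 - G.t h.2
  stop h := h.2 ∉ D ∨ G.t w ≤ G.t h.2
  ask h := if h.2 ∉ σ.Dec then some (G.coin h.2) else none
  nxt h b := if h.2 ∉ σ.Dec then (Function.update h.1 (G.coin h.2) b, if b = true then G.zz h.2 else G.oo h.2)
    else (h.1, law G σ h.1 h.2)
  hm h b := h.2 ∉ σ.Dec ∧ bad G σ D δ (Function.update h.1 (G.coin h.2) b) z w h.2
  vis h ω := PD G D (law G σ ω) h.2 w
  cnt h ω := if h.2 ∈ D then Set.ncard {v | G.t h.2 ≤ G.t v ∧ G.t v < G.t w ∧ bad G σ D δ ω z w v} else 0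
  psi _ ω := psi G σ D w δ ω

/-- The invariant of the machine. -/
def MI (G : Bars V) (σ : St V) (D : Set V) (z : V) (h : (V × Bool → Bool) × V)
    (g : V × Bool → Option Bool) : Prop :=
  PB G D (law G σ h.1) z h.2 ∧
    ∀ κ, g κ ≠ none → ∃ v', DS G σ D h.1 z v' ∧ G.t v' < G.t h.2 ∧ κ = G.blw (G.flh v')

variable {z w : V} {δ : ℝ}

theorem mc_ask_some {ω : V × Bool → Bool} {v : V} (ha : v ∉ σ.Dec) :
    (mc G σ D z w δ).ask (ω, v) = some (G.coin v) := by
  classical
  show (if v ∉ σ.Dec then some (G.coin v) else none) = _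
  rw [if_pos ha]

theorem mc_ask_none {ω : V × Bool → Bool} {v : V} (ha : v ∈ σ.Dec) :
    (mc G σ D z w δ).ask (ω, v) = none := by
  classical
  show (if v ∉ σ.Dec then some (G.coin v) else none) = _
  rw [if_neg (not_not.2 ha)]

theorem mc_nxt_ask {ω : V × Bool → Bool} {v : V} (ha : v ∉ σ.Dec) (b : Bool) :
    (mc G σ D z w δ).nxt (ω, v) b = (Function.update ω (G.coin v) b, if b = true then G.zz v else G.oo v) := by
  classical
  show (if v ∉ σ.Dec then (Function.update ω (G.coin v) b, if b = true then G.zz v else G.oo v)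
    else (ω, law G σ ω v)) = _
  rw [if_pos ha]

theorem mc_nxt_nask {ω : V × Bool → Bool} {v : V} (ha : v ∈ σ.Dec) (b : Bool) :
    (mc G σ D z w δ).nxt (ω, v) b = (ω, law G σ ω v) := by
  classical
  show (if v ∉ σ.Dec then (Function.update ω (G.coin v) b, if b = true then G.zz v else G.oo v)
    else (ω, law G σ ω v)) = _
  rw [if_neg (not_not.2 ha)]

omit [Fintype V] in
/-- The facts after a question with the answer `b`. -/
theorem upd (hb : Base0 G σ) (hDS : ∀ u ∈ D, u ∉ σ.S) {ω : V × Bool → Bool} {v : V} {g : V × Bool → Option Bool} {b : Bool}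
    (hI : MI G σ D z (ω, v) g) (hv : v ∈ D) (ha : v ∉ σ.Dec)
    (hu : uni (pmem G σ D ω z v) g (G.coin v) = none ∨ uni (pmem G σ D ω z v) g (G.coin v) = some b) :
    AgD G σ D z (G.t v) ω (Function.update ω (G.coin v) b) ∧
      PD G D (law G σ (Function.update ω (G.coin v) b)) z v ∧
      law G σ (Function.update ω (G.coin v) b) v = (if b = true then G.zz v else G.oo v) ∧
      pmem G σ D (Function.update ω (G.coin v) b) z (if b = true then G.zz v else G.oo v) =
        asg (pmem G σ D ω z v) (G.coin v) b ∧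
      MI G σ D z (Function.update ω (G.coin v) b, if b = true then G.zz v else G.oo v) g := by
  obtain ⟨h1, h3⟩ := hI
  simp only at h1 h3
  have hS := hDS v hv
  have hb' : pmem G σ D ω z v (G.coin v) = none ∨ pmem G σ D ω z v (G.coin v) = some b := by
    cases hc : pmem G σ D ω z v (G.coin v) with
    | none => exact Or.inl rfl
    | some b' =>
      right
      rw [uni_of_some g hc] at hu
      rcases hu with hu | hu
      · exact absurd hu (Option.some_ne_none _)
      · exact hu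
  have hag : AgD G σ D z (G.t v) ω (Function.update ω (G.coin v) b) := by
    intro v' h4 h5 h6
    by_cases h7 : G.coin v' = G.coin v
    · rw [h7, Function.update_self]
      have h8 := pmem_asked h4 h5 h6
      rw [h7] at h8
      rw [h8] at hb'
      rcases hb' with h9 | h9
      · exact absurd h9 (Option.some_ne_none _)
      · exact Option.some.inj h9
    · rw [Function.update_of_ne h7]
  have hor : PD G D (law G σ (Function.update ω (G.coin v) b)) z v := ((hag.pb hb le_rfl).1 h1).pd hv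
  have hlam : law G σ (Function.update ω (G.coin v) b) v = (if b = true then G.zz v else G.oo v) := by
    rw [law_ask _ hS ha, Function.update_self]
  have ht := t_lt_ch (law_ch hb (Function.update ω (G.coin v) b)) (inn_of_notS hb hS)
  refine ⟨hag, hor, hlam, ?_, ?_, ?_⟩
  · funext κ
    have h4 := pmem_next hb hDS hor κ
    rw [hlam] at h4
    rcases h4 with ⟨_, h5, h6⟩ | ⟨h5, h6⟩
    · rw [h6, h5, Function.update_self, asg_same]
    · have h7 : κ ≠ G.coin v := fun h8 => h5 ⟨ha, h8⟩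
      rw [h6, asg_ne _ _ h7, hag.pmem hb le_rfl]
  · simp only
    rw [← hlam]
    exact PB.step hb hor
  · intro κ h4
    obtain ⟨v', h5, h6, h7⟩ := h3 κ h4
    refine ⟨v', (hag.ds hb h6).1 h5, ?_, h7⟩
    simp only
    rw [← hlam]
    omega

omit [Fintype V] [DecidableEq V] in
/-- An outcome consistent with the memory has the token at `v` too. -/
theorem cons (hb : Base0 G σ) {ω ω' : V × Bool → Bool} {v : V} {g : V × Bool → Option Bool}
    (hI : MI G σ D z (ω, v) g) (hv : v ∈ D)
    (ho : ∀ q b, uni (pmem G σ D ω z v) g q = some b → ω' q = b) :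
    AgD G σ D z (G.t v) ω ω' ∧ PD G D (law G σ ω') z v := by
  have h1 : Ext (pmem G σ D ω z v) ω' := fun κ b hb => ho κ b (uni_of_some g hb)
  have h2 := ag_of_ext' h1
  exact ⟨h2, ((h2.pb hb le_rfl).1 hI.1).pd hv⟩

theorem mbit_ask {ω ω' : V × Bool → Bool} {v : V} (ha : v ∉ σ.Dec) :
    (mc G σ D z w δ).bit ω' (ω, v) = ω' (G.coin v) := by
  unfold Mach.bit
  rw [mc_ask_some ha]
  rfl

/-- The machine goes to the next vertex of the route. -/
theorem mstp_snd {ω ω' : V × Bool → Bool} {v : V} (hS : v ∉ σ.S) :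
    ((mc G σ D z w δ).stp ω' (ω, v)).2 = law G σ ω' v := by
  unfold Mach.stp
  by_cases ha : v ∈ σ.Dec
  · rw [mc_nxt_nask ha]
    exact law_congr fun _ h => absurd ha h
  · rw [mc_nxt_ask ha, mbit_ask ha, law_ask ω' hS ha]

/-- The harmful direction. -/
theorem mhm_iff (hb : Base0 G σ) (hDS : ∀ u ∈ D, u ∉ σ.S) (hDD : HD G σ) {ω ω' : V × Bool → Bool} {v : V}
    {g : V × Bool → Option Bool} (hI : MI G σ D z (ω, v) g) (hv : v ∈ D)
    (ho : ∀ q b, uni (pmem G σ D ω z v) g q = some b → ω' q = b) :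
    (mc G σ D z w δ).hm (ω, v) ((mc G σ D z w δ).bit ω' (ω, v)) ↔ bad G σ D δ ω' z w v := by
  obtain ⟨h2, h3⟩ := cons hb hI hv ho
  by_cases ha : v ∈ σ.Dec
  · constructor
    · intro h4
      exact absurd ha h4.1
    · intro h4
      exact absurd ha (notDec_of_bad hb hDS hDD h4)
  · rw [mbit_ask ha]
    show v ∉ σ.Dec ∧ bad G σ D δ (Function.update ω (G.coin v) (ω' (G.coin v))) z w v ↔ _
    have h4 : AgD G σ D z (G.t v + 1) ω' (Function.update ω (G.coin v) (ω' (G.coin v))) := by
      intro v' h5 h6 h7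
      by_cases h8 : G.coin v' = G.coin v
      · rw [h8, Function.update_self]
      · rw [Function.update_of_ne h8]
        have h9 : G.t v' ≠ G.t v := fun h10 => h8 (by rw [G.t_inj h10])
        have h10 : G.t v' < G.t v := by omega
        exact (h2 v' ((h2.pd hb h10.le).2 h5) h10 h7).symm
    rw [h4.bad hb (Nat.lt_succ_self _) δ w]
    exact ⟨fun h5 => h5.2, fun h5 => ⟨ha, h5⟩⟩

/-- The count of the machine. -/
theorem mcnt_step (hb : Base0 G σ) (hDS : ∀ u ∈ D, u ∉ σ.S) {ω' : V × Bool → Bool} {v : V}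
    (hv : PD G D (law G σ ω') z v) (hw : G.t v < G.t w) :
    (bad G σ D δ ω' z w v → Set.ncard {u | G.t v ≤ G.t u ∧ G.t u < G.t w ∧ bad G σ D δ ω' z w u} =
      Set.ncard {u | G.t (law G σ ω' v) ≤ G.t u ∧ G.t u < G.t w ∧ bad G σ D δ ω' z w u} + 1) ∧
    (¬ bad G σ D δ ω' z w v → Set.ncard {u | G.t v ≤ G.t u ∧ G.t u < G.t w ∧ bad G σ D δ ω' z w u} =
      Set.ncard {u | G.t (law G σ ω' v) ≤ G.t u ∧ G.t u < G.t w ∧ bad G σ D δ ω' z w u}) := by
  have ht := t_lt_ch (law_ch hb ω') (inn_of_notS hb (hDS v hv.mem))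
  have key : ∀ u, (G.t v ≤ G.t u ∧ G.t u < G.t w ∧ bad G σ D δ ω' z w u) ↔
      ((u = v ∧ bad G σ D δ ω' z w v) ∨
        (G.t (law G σ ω' v) ≤ G.t u ∧ G.t u < G.t w ∧ bad G σ D δ ω' z w u)) := by
    intro u
    constructor
    · rintro ⟨h1, h2, h3⟩
      rcases h1.lt_or_eq with h4 | h4
      · right
        have h5 := (ds_of_bad h3).1
        exact ⟨orb_t (law_ch hb ω') (orb_lt (law_ch hb ω') hv.1 h5.1 h4), h2, h3⟩
      · left
        have h5 := G.t_inj h4
        exact ⟨h5.symm, by rw [h5]; exact h3⟩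
    · rintro (⟨h1, h2⟩ | ⟨h1, h2, h3⟩)
      · rw [h1]
        exact ⟨le_rfl, hw, h2⟩
      · exact ⟨by omega, h2, h3⟩
  constructor
  · intro h
    have e : {u | G.t v ≤ G.t u ∧ G.t u < G.t w ∧ bad G σ D δ ω' z w u} =
        insert v {u | G.t (law G σ ω' v) ≤ G.t u ∧ G.t u < G.t w ∧ bad G σ D δ ω' z w u} := by
      ext u
      rw [Set.mem_insert_iff, Set.mem_ofPred_eq, Set.mem_ofPred_eq, key u]
      constructor
      · rintro (h1 | h1)
        · exact Or.inl h1.1
        · exact Or.inr h1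
      · rintro (h1 | h1)
        · exact Or.inl ⟨h1, h⟩
        · exact Or.inr h1
    rw [e, Set.ncard_insert_of_notMem _ (Set.toFinite _)]
    intro h1
    have h2 := h1.1
    omega
  · intro h
    congr 1
    ext u
    rw [Set.mem_ofPred_eq, Set.mem_ofPred_eq, key u]
    constructor
    · rintro (h1 | h1)
      · exact absurd h1.2 h
      · exact h1
    · intro h1
      exact Or.inr h1

theorem mcnt_zero {ω' : V × Bool → Bool} {v : V} (hv : PD G D (law G σ ω') z v)
    (hS : law G σ ω' v ∉ D) :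
    Set.ncard {u | G.t (law G σ ω' v) ≤ G.t u ∧ G.t u < G.t w ∧ bad G σ D δ ω' z w u} = 0 := by
  rw [Set.ncard_eq_zero (Set.toFinite _), Set.eq_empty_iff_forall_notMem]
  rintro u ⟨h1, _, h3⟩
  have h4 := (ds_of_bad h3).1
  exact hS (h4.2 _ (orb_step hv.1) h1)

theorem mcnt_D {ω ω' : V × Bool → Bool} {v : V} (hv : v ∈ D) :
    (mc G σ D z w δ).cnt (ω, v) ω' = Set.ncard {u | G.t v ≤ G.t u ∧ G.t u < G.t w ∧ bad G σ D δ ω' z w u} := by
  classical
  show (if v ∈ D then _ else 0) = _
  rw [if_pos hv]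

theorem mcnt_out {ω ω' : V × Bool → Bool} {v : V} (hv : v ∉ D) :
    (mc G σ D z w δ).cnt (ω, v) ω' = 0 := by
  classical
  show (if v ∈ D then _ else 0) = _
  rw [if_neg hv]

theorem mcnt_nx {h : (V × Bool → Bool) × V} {ω' : V × Bool → Bool} {v : V}
    (hv : PD G D (law G σ ω') z v) (he : h.2 = law G σ ω' v) :
    (mc G σ D z w δ).cnt h ω' =
      Set.ncard {u | G.t (law G σ ω' v) ≤ G.t u ∧ G.t u < G.t w ∧ bad G σ D δ ω' z w u} := by
  classical
  show (if h.2 ∈ D then Set.ncard {u | G.t h.2 ≤ G.t u ∧ G.t u < G.t w ∧ bad G σ D δ ω' z w u} else 0) = _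
  rw [he]
  by_cases hS : law G σ ω' v ∈ D
  · rw [if_pos hS]
  · rw [if_neg hS, mcnt_zero hv hS]

end machine

end Pool.Agent.W_a4f561_P73
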