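import Pool.Agent.W_a4f561_P73.PDef
import Pool.Agent.W_a4f561_E.Loc73

/-!
MP_a4f561_co, polylog, section 2: the law, paths in a cell, locality (helper73).
-/

set_option autoImplicit false

namespace Pool.Agent.W_a4f561_P73

open Pool.Agent.W_a4f561_h26 Pool.Agent.W_a4f561_E Pool.Agent.W_a4f561_E73

variable {V : Type} {G : Bars V} {σ : St V} {D : Set V}

/-- What is needed of a state (it need not be closed under `pi`). -/
structure Base0 (G : Bars V) (σ : St V) : Prop where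
  bot_mem : G.bot ∈ σ.S
  top_mem : G.top ∈ σ.S
  ch : Ch G σ.pi

theorem Base.b0 (h : Base G σ) : Base0 G σ := ⟨h.bot_mem, h.top_mem, h.ch⟩

/-! ### the law -/

theorem law_SD (ω : V × Bool → Bool) {v : V} (h : v ∈ σ.S ∪ σ.Dec) : law G σ ω v = σ.pi v := by
  classical
  unfold law
  rw [if_pos h]

theorem law_ask (ω : V × Bool → Bool) {v : V} (h1 : v ∉ σ.S) (h2 : v ∉ σ.Dec) :
    law G σ ω v = if ω (G.coin v) = true then G.zz v else G.oo v := by
  classical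
  unfold law
  rw [if_neg fun h => h.elim h1 h2]

theorem law_true {ω : V × Bool → Bool} {v : V} (h1 : v ∉ σ.S) (h2 : v ∉ σ.Dec) (h : ω (G.coin v) = true) :
    law G σ ω v = G.zz v := by
  rw [law_ask ω h1 h2, if_pos h]

theorem law_false {ω : V × Bool → Bool} {v : V} (h1 : v ∉ σ.S) (h2 : v ∉ σ.Dec) (h : ω (G.coin v) = false) :
    law G σ ω v = G.oo v := by
  rw [law_ask ω h1 h2, if_neg (by rw [h]; exact Bool.false_ne_true)]

theorem law_congr {ω ω' : V × Bool → Bool} {v : V} (h : v ∉ σ.S → v ∉ σ.Dec → ω (G.coin v) = ω' (G.coin v)) :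
    law G σ ω v = law G σ ω' v := by
  by_cases h1 : v ∈ σ.S ∪ σ.Dec
  · rw [law_SD ω h1, law_SD ω' h1]
  · have h2 : v ∉ σ.S := fun h3 => h1 (Or.inl h3)
    have h3 : v ∉ σ.Dec := fun h4 => h1 (Or.inr h4)
    rw [law_ask ω h2 h3, law_ask ω' h2 h3, h h2 h3]

theorem inn_of_notS (hb : Base0 G σ) {v : V} (hv : v ∉ σ.S) : G.inn v :=
  ⟨fun h => hv (h ▸ hb.bot_mem), fun h => hv (h ▸ hb.top_mem)⟩

theorem law_ch (hb : Base0 G σ) (ω : V × Bool → Bool) : Ch G (law G σ ω) := by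
  refine ⟨?_, ?_, fun v hv => ?_⟩
  · rw [law_SD ω (Or.inl hb.bot_mem), hb.ch.1]
  · rw [law_SD ω (Or.inl hb.top_mem), hb.ch.2.1]
  · by_cases h1 : v ∈ σ.S ∪ σ.Dec
    · rw [law_SD ω h1]
      exact hb.ch.2.2 v hv
    · have h2 : v ∉ σ.S := fun h3 => h1 (Or.inl h3)
      have h3 : v ∉ σ.Dec := fun h4 => h1 (Or.inr h4)
      rw [law_ask ω h2 h3]
      rcases zz_oo G v with ⟨_, h4, h5⟩ | ⟨_, h4, h5⟩
      · rw [h4, h5]
        split_ifs
        · exact Or.inr rfl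
        · exact Or.inl rfl
      · rw [h4, h5]
        split_ifs
        · exact Or.inl rfl
        · exact Or.inr rfl

theorem law_fin (hb : Base0 G σ) (ω : V × Bool → Bool) : Fin' G σ (law G σ ω) :=
  ⟨law_ch hb ω, fun _ hv => law_SD ω hv⟩

theorem t_lt_ch {π : V → V} (h : Ch G π) {v : V} (hv : G.inn v) : G.t v < G.t (π v) := by
  rcases h.2.2 v hv with h1 | h1
  · rw [h1]
    exact t_lo G hv
  · rw [h1]
    exact t_up G hv

/-! ### paths -/

/-- The vertices of the route of `z` strictly before `v` are in `D`. -/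
def PB (G : Bars V) (D : Set V) (π : V → V) (z v : V) : Prop :=
  Orb π z v ∧ ∀ u, Orb π z u → G.t u < G.t v → u ∈ D

theorem PD.pb {π : V → V} {z v : V} (h : PD G D π z v) : PB G D π z v :=
  ⟨h.1, fun u h1 h2 => h.2 u h1 h2.le⟩

theorem PD.mem {π : V → V} {z v : V} (h : PD G D π z v) : v ∈ D := h.2 v h.1 le_rfl

theorem PB.pd {π : V → V} {z v : V} (h : PB G D π z v) (hv : v ∈ D) : PD G D π z v := by
  refine ⟨h.1, fun u h1 h2 => ?_⟩
  rcases h2.lt_or_eq with h3 | h3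
  · exact h.2 u h1 h3
  · rw [G.t_inj h3]
    exact hv

theorem PD.start {π : V → V} (hπ : Ch G π) {z v : V} (h : PD G D π z v) : z ∈ D :=
  h.2 z (orb_refl π z) (orb_t hπ h.1)

/-- A part of a path. -/
theorem PD.sub {π : V → V} {z u v : V} (h : PD G D π z v) (h1 : Orb π z u) (h2 : Orb π u v) : PD G D π u v :=
  ⟨h2, fun x hx ht => h.2 x (orb_trans h1 hx) ht⟩

theorem PD.before {π : V → V} {z u v : V} (h : PD G D π z v) (h1 : Orb π z u) (h2 : G.t u ≤ G.t v) : PD G D π z u :=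
  ⟨h1, fun x hx ht => h.2 x hx (ht.trans h2)⟩

theorem PB.before {π : V → V} {z u v : V} (h : PB G D π z v) (h1 : Orb π z u) (h2 : G.t u < G.t v) : PD G D π z u :=
  ⟨h1, fun x hx ht => h.2 x hx (lt_of_le_of_lt ht h2)⟩

/-- Gluing. -/
theorem PD.glue {π : V → V} (hπ : Ch G π) {z u v : V} (h : PD G D π z u) (h' : PD G D π u v) : PD G D π z v := by
  refine ⟨orb_trans h.1 h'.1, fun x hx ht => ?_⟩
  rcases le_total (G.t x) (G.t u) with h1 | h1
  · exact h.2 x hx h1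
  · exact h'.2 x (orb_comp hπ h.1 hx h1) ht

theorem PD.refl {π : V → V} (hπ : Ch G π) {z : V} (hz : z ∈ D) : PD G D π z z := by
  refine ⟨orb_refl π z, fun v h1 h2 => ?_⟩
  have h3 := orb_t hπ h1
  rw [G.t_inj (le_antisymm h2 h3)]
  exact hz

/-- One step forward. -/
theorem PD.next {π : V → V} {z w : V} (h : PD G D π z w) (hne : z ≠ w) : PD G D π (π z) w := by
  refine ⟨orb_next h.1 hne, fun v h1 h2 => h.2 v (orb_of_next h1) h2⟩

theorem PD.of_next {π : V → V} (_ : Ch G π) {z w : V} (hz : z ∈ D) (h : PD G D π (π z) w) : PD G D π z w := by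
  refine ⟨orb_of_next h.1, fun v h1 h2 => ?_⟩
  by_cases h3 : z = v
  · rw [← h3]
    exact hz
  · exact h.2 v (orb_next h1 h3) h2

/-- Outcomes which agree on the coins asked in `D` before time `T`. -/
def AgD (G : Bars V) (σ : St V) (D : Set V) (z : V) (T : ℕ) (ω ω' : V × Bool → Bool) : Prop :=
  ∀ v, PD G D (law G σ ω) z v → G.t v < T → v ∉ σ.Dec → ω (G.coin v) = ω' (G.coin v)

section loc

variable (hb : Base0 G σ)

include hb

/-- Paths before time `T` are common. -/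
theorem AgD.iter {z : V} {T : ℕ} {ω ω' : V × Bool → Bool} (h : AgD G σ D z T ω ω') (k : ℕ)
    (h1 : ∀ j, j < k → (law G σ ω)^[j] z ∈ D) (h2 : ∀ j, j < k → G.t ((law G σ ω)^[j] z) < T) :
    (law G σ ω')^[k] z = (law G σ ω)^[k] z := by
  induction k with
  | zero => rfl
  | succ k ih =>
    rw [Function.iterate_succ_apply', Function.iterate_succ_apply', ih (fun j hj => h1 j (by omega))
      (fun j hj => h2 j (by omega))]
    refine (law_congr fun _ h3 => ?_).symm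
    refine h _ ⟨⟨k, rfl⟩, ?_⟩ (h2 k (by omega)) h3
    rintro v ⟨m, rfl⟩ ht
    rcases Nat.lt_or_ge k m with hm | hm
    · have h4 := iter_mono (law_ch hb ω) z hm.le
      rw [G.t_inj (le_antisymm ht h4)]
      exact h1 k (by omega)
    · exact h1 m (by omega)

theorem AgD.iter' {z : V} {T : ℕ} {ω ω' : V × Bool → Bool} (h : AgD G σ D z T ω ω') (k : ℕ)
    (h1 : ∀ j, j < k → (law G σ ω')^[j] z ∈ D) (h2 : ∀ j, j < k → G.t ((law G σ ω')^[j] z) < T) :
    ∀ i, i ≤ k → (law G σ ω')^[i] z = (law G σ ω)^[i] z := by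
  intro i
  induction i using Nat.strong_induction_on with
  | _ i ih =>
  intro hi
  refine h.iter hb i (fun j hj => ?_) (fun j hj => ?_)
  · rw [← ih j hj (by omega)]
    exact h1 j (by omega)
  · rw [← ih j hj (by omega)]
    exact h2 j (by omega)

theorem AgD.pb {z : V} {T : ℕ} {ω ω' : V × Bool → Bool} (h : AgD G σ D z T ω ω') {u : V} (hu : G.t u ≤ T) :
    PB G D (law G σ ω) z u ↔ PB G D (law G σ ω') z u := by
  constructor
  · intro h1
    obtain ⟨k, h2, h3⟩ := orb_first (law_ch hb ω) h1.1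
    have h4 : ∀ j, j ≤ k → (law G σ ω')^[j] z = (law G σ ω)^[j] z := fun j hj =>
      h.iter hb j (fun i hi => h1.2 _ ⟨i, rfl⟩ (h3 i (by omega))) (fun i hi => (h3 i (by omega)).trans_le hu)
    refine ⟨⟨k, by rw [h4 k le_rfl, h2]⟩, ?_⟩
    rintro v ⟨m, rfl⟩ ht
    rcases Nat.lt_or_ge m k with hm | hm
    · rw [h4 m hm.le]
      exact h1.2 _ ⟨m, rfl⟩ (h3 m hm)
    · exfalso
      have h5 := iter_mono (law_ch hb ω') z hm
      rw [h4 k le_rfl, h2] at h5
      omega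
  · intro h1
    obtain ⟨k, h2, h3⟩ := orb_first (law_ch hb ω') h1.1
    have h4 := h.iter' hb k (fun i hi => h1.2 _ ⟨i, rfl⟩ (h3 i hi)) (fun i hi => (h3 i hi).trans_le hu)
    refine ⟨⟨k, by rw [← h4 k le_rfl, h2]⟩, ?_⟩
    rintro v ⟨m, rfl⟩ ht
    rcases Nat.lt_or_ge m k with hm | hm
    · rw [← h4 m hm.le]
      exact h1.2 _ ⟨m, rfl⟩ (h3 m hm)
    · exfalso
      have h5 := iter_mono (law_ch hb ω) z hm
      rw [← h4 k le_rfl, h2] at h5
      omega

theorem AgD.pd {z : V} {T : ℕ} {ω ω' : V × Bool → Bool} (h : AgD G σ D z T ω ω') {u : V} (hu : G.t u ≤ T) :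
    PD G D (law G σ ω) z u ↔ PD G D (law G σ ω') z u :=
  ⟨fun h1 => ((h.pb hb hu).1 h1.pb).pd h1.mem, fun h1 => ((h.pb hb hu).2 h1.pb).pd h1.mem⟩

theorem AgD.symm {z : V} {T : ℕ} {ω ω' : V × Bool → Bool} (h : AgD G σ D z T ω ω') : AgD G σ D z T ω' ω :=
  fun v h1 h2 h3 => (h v ((h.pd hb h2.le).2 h1) h2 h3).symm

omit hb in
theorem AgD.law {z : V} {T : ℕ} {ω ω' : V × Bool → Bool} (h : AgD G σ D z T ω ω') {u : V}
    (hu : G.t u < T) (hz : PD G D (law G σ ω) z u) : law G σ ω u = law G σ ω' u :=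
  law_congr fun _ h1 => h u hz hu h1

theorem AgD.ds {z : V} {T : ℕ} {ω ω' : V × Bool → Bool} (h : AgD G σ D z T ω ω') {u : V}
    (hu : G.t u < T) : DS G σ D ω z u ↔ DS G σ D ω' z u := by
  unfold DS
  rw [h.pd hb hu.le]
  constructor
  · rintro ⟨h1, h2, h3⟩
    exact ⟨h1, by rw [← h.law hu ((h.pd hb hu.le).2 h1)]; exact h2, h3⟩
  · rintro ⟨h1, h2, h3⟩
    exact ⟨h1, by rw [h.law hu ((h.pd hb hu.le).2 h1)]; exact h2, h3⟩

end loc

/-! ### memory -/

/-- The coins asked in `D` before `u`. -/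
noncomputable def pmem (G : Bars V) (σ : St V) (D : Set V) (ω : V × Bool → Bool) (z u : V) :
    V × Bool → Option Bool := by
  classical
  exact fun κ => if ∃ v, PD G D (law G σ ω) z v ∧ G.t v < G.t u ∧ v ∉ σ.Dec ∧ G.coin v = κ then some (ω κ) else none

theorem pmem_asked {ω : V × Bool → Bool} {z u v : V} (h1 : PD G D (law G σ ω) z v)
    (h2 : G.t v < G.t u) (h3 : v ∉ σ.Dec) : pmem G σ D ω z u (G.coin v) = some (ω (G.coin v)) := by
  classical
  unfold pmem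
  rw [if_pos ⟨v, h1, h2, h3, rfl⟩]

theorem pmem_cases (G : Bars V) (σ : St V) (D : Set V) (ω : V × Bool → Bool) (z u : V) (κ : V × Bool) :
    (∃ v, PD G D (law G σ ω) z v ∧ G.t v < G.t u ∧ v ∉ σ.Dec ∧ G.coin v = κ ∧ pmem G σ D ω z u κ = some (ω κ)) ∨
    ((¬ ∃ v, PD G D (law G σ ω) z v ∧ G.t v < G.t u ∧ v ∉ σ.Dec ∧ G.coin v = κ) ∧ pmem G σ D ω z u κ = none) := by
  classical
  by_cases h : ∃ v, PD G D (law G σ ω) z v ∧ G.t v < G.t u ∧ v ∉ σ.Dec ∧ G.coin v = κ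
  · obtain ⟨v, h1, h2, h3, h4⟩ := h
    left
    refine ⟨v, h1, h2, h3, h4, ?_⟩
    rw [← h4]
    exact pmem_asked h1 h2 h3
  · right
    refine ⟨h, ?_⟩
    unfold pmem
    rw [if_neg h]

theorem ext_pmem (G : Bars V) (σ : St V) (D : Set V) (ω : V × Bool → Bool) (z u : V) : Ext (pmem G σ D ω z u) ω := by
  intro κ b h
  rcases pmem_cases G σ D ω z u κ with ⟨_, _, _, _, _, h1⟩ | ⟨_, h1⟩
  · rw [h1] at h
    exact Option.some.inj h
  · rw [h1] at h
    exact absurd h.symm (Option.some_ne_none _)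

theorem ag_of_ext' {ω ω' : V × Bool → Bool} {z u : V} (h : Ext (pmem G σ D ω z u) ω') :
    AgD G σ D z (G.t u) ω ω' := by
  intro v h1 h2 h3
  exact (h _ _ (pmem_asked h1 h2 h3)).symm

theorem AgD.pmem (hb : Base0 G σ) {z : V} {T : ℕ} {ω ω' : V × Bool → Bool} (h : AgD G σ D z T ω ω') {u : V}
    (hu : G.t u ≤ T) : pmem G σ D ω z u = pmem G σ D ω' z u := by
  funext κ
  rcases pmem_cases G σ D ω z u κ with ⟨v, h1, h2, h3, h4, h5⟩ | ⟨h1, h2⟩
  · rw [h5, ← h4, pmem_asked ((h.pd hb (by omega)).1 h1) h2 h3, h v h1 (by omega) h3]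
  · rw [h2]
    rcases pmem_cases G σ D ω' z u κ with ⟨v, h3, h4, h5, h6, h7⟩ | ⟨h3, h4⟩
    · exact absurd ⟨v, (h.pd hb (by omega)).2 h3, h4, h5, h6⟩ h1
    · rw [h4]

end Pool.Agent.W_a4f561_P73
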