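import Pool.Agent.W_a4f561_P73.PLoc
import Pool.Agent.W_a4f561_E.Det70

/-!
MP_a4f561_co, polylog, section 2: squeezing (SQ), the alternative branch, the events `E_w` (helper73).
-/

set_option autoImplicit false

namespace Pool.Agent.W_a4f561_P73

open Pool.Agent.W_a4f561_h26 Pool.Agent.W_a4f561_E Pool.Agent.W_a4f561_E73

variable {V : Type} {G : Bars V} {σ : St V} {D : Set V}

/-- (SQ) -/
theorem sq {s τ : ℕ} (hL : LENS G σ D s) (hτ : s < τ) {x y x' w : V} {π ρ : V → V}
    (hπ : Fin' G σ π) (hρ : Fin' G σ ρ) (hax : G.al x τ) (hay : G.al y τ) (hax' : G.al x' τ)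
    (h1 : G.r x < G.r y) (h2 : G.r y ≤ G.r x') (hP : PD G D π x w) (hR : PD G D ρ x' w) (hw : G.inn w) :
    ∃ u, Orb π x u ∧ G.t u ≤ G.t w ∧ Orb ρ y u ∧ ∀ v, Orb ρ y v → G.t v < G.t u → v ∈ D := by
  classical
  have hcπ := hπ.1
  have hcρ := hρ.1
  have hwN : G.t w < G.N := G.t_in w hw.1 hw.2
  have hxw : G.t x ≤ G.t w := orb_t hcπ hP.1
  have hτw : τ ≤ G.t w := hax.2.trans hxw
  have hPτ : host G π x τ = x := host_self hcπ hax.2
  have hYτ : host G ρ y τ = y := host_self hcρ hay.2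
  have hRτ : host G ρ x' τ = x' := host_self hcρ hax'.2
  have hPw : host G π x (G.t w) = w := host_t hcπ hP.1 hw
  have hRw : host G ρ x' (G.t w) = w := host_t hcρ hR.1 hw
  -- `Y ≤ R`
  have hYR : ∀ θ, τ ≤ θ → θ ≤ G.t w → G.r (host G ρ y θ) ≤ G.r (host G ρ x' θ) := fun θ h3 h4 =>
    order_one hcρ hay.1 hax'.1 h3 (by omega) (by rw [hYτ, hRτ]; exact h2)
  have hmeet : ∀ θ, τ ≤ θ → θ ≤ G.t w → G.r (host G ρ y θ) ≤ G.r (host G π x θ) →
      ∃ θ', τ < θ' ∧ θ' ≤ θ ∧ host G π x θ' = host G ρ y θ' := fun θ h3 h4 h5 =>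
    order hcπ hcρ hax.1 hay.1 h3 (by omega) (by rw [hPτ, hYτ]; exact h1) h5
  have hex : ∃ θ, τ < θ ∧ θ ≤ G.t w ∧ host G π x θ = host G ρ y θ := by
    refine hmeet _ hτw le_rfl ?_
    have h3 := hYR _ hτw le_rfl
    rw [hRw] at h3
    rw [hPw]
    exact h3
  obtain ⟨h3, h4, h5⟩ := Nat.find_spec hex
  set θ0 := Nat.find hex with hθ0
  have hlt : ∀ θ, τ ≤ θ → θ < θ0 → G.r (host G π x θ) < G.r (host G ρ y θ) := by
    intro θ h6 h7
    by_contra h8
    obtain ⟨θ', h9, h10, h11⟩ := hmeet θ h6 (by omega) (not_lt.1 h8)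
    exact Nat.find_min hex (m := θ') (by omega) ⟨h9, by omega, h11⟩
  refine ⟨host G π x θ0, host_orb G π x θ0, ?_, ?_, fun v h6 h7 => ?_⟩
  · have h6 : Orb π (host G π x θ0) (host G π (host G π x θ0) (G.t w)) := host_orb G π _ _
    rw [host_add hcπ (by have := hax.1; omega) h4 (by omega), hPw] at h6
    exact orb_t hcπ h6
  · rw [h5]
    exact host_orb G ρ y θ0
  · have htu : G.t (host G π x θ0) ≤ G.t w := by
      have h8 : Orb π (host G π x θ0) (host G π (host G π x θ0) (G.t w)) := host_orb G π _ _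
      rw [host_add hcπ (by have := hax.1; omega) h4 (by omega), hPw] at h8
      exact orb_t hcπ h8
    have hvi : G.inn v := by
      constructor
      · intro e
        have := G.t_bot
        rw [e] at h7
        omega
      · intro e
        have := G.t_top
        rw [e] at h7
        omega
    have hvt : host G ρ y (G.t v) = v := host_t hcρ h6 hvi
    have hyv : G.t y ≤ G.t v := orb_t hcρ h6
    have hτv : τ ≤ G.t v := hay.2.trans hyv
    have hvθ : G.t v < θ0 := by
      by_contra h8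
      have h9 : Orb ρ (host G ρ y θ0) (host G ρ (host G ρ y θ0) (G.t v)) := host_orb G ρ _ _
      rw [host_add hcρ (by have := hay.1; omega) (not_lt.1 h8) (by omega), hvt, ← h5] at h9
      have := orb_t hcρ h9
      omega
    have h8 := hlt _ hτv hvθ
    have h9 := hYR _ hτv (by omega)
    rw [hvt] at h8 h9
    rcases h9.lt_or_eq with h10 | h10
    · refine hL (G.t v) (by omega) (host G π x (G.t v)) v (host G ρ x' (G.t v)) w π ρ hπ hρ
        (host_al hcπ (by have := hax.1; omega) (by omega)) ⟨G.bt v, le_rfl⟩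
        (host_al hcρ (by have := hax'.1; omega) (by omega)) h8 h10 ?_ ?_
      · refine hP.sub (host_orb G π x _) ?_
        have h11 : Orb π (host G π x (G.t v)) (host G π (host G π x (G.t v)) (G.t w)) := host_orb G π _ _
        rwa [host_add hcπ (by have := hax.1; omega) (by omega) (by omega), hPw] at h11
      · refine hR.sub (host_orb G ρ x' _) ?_
        have h11 : Orb ρ (host G ρ x' (G.t v)) (host G ρ (host G ρ x' (G.t v)) (G.t w)) := host_orb G ρ _ _
        rwa [host_add hcρ (by have := hax'.1; omega) (by omega) (by omega), hRw] at h11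
    · refine hR.2 v ?_ (by omega)
      rw [G.r_inj h10]
      exact host_orb G ρ x' _

section alt

variable (hb : Base0 G σ) (hDD : HD G σ)

include hb hDD

/-- When the coin of `v` rejects `x = lo v`, the other branch comes to `x` only from the exposure of the first long head,
and then this vertex is declared or the first long head is rejected. -/
theorem det1' {v : V} (hvS : v ∉ σ.S) (hz : G.zz v = G.lo v) (hx : G.lo v ∉ σ.S)
    {ω : V × Bool → Bool} (hc : ω (G.coin v) = false) {u : V} (hu1 : Orb (law G σ ω) (G.up v) u) (huS : u ∉ σ.S)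
    (hu3 : law G σ ω u = G.lo v) :
    G.t u + 1 = G.tau1 v ∧ (fb G σ v ∨ ω (G.blw (G.flh v)) = false) := by
  have hv : G.inn v := inn_of_notS hb hvS
  have hxi : G.inn (G.lo v) := inn_of_notS hb hx
  have hch := law_ch hb ω
  obtain ⟨hlt, htau1, hft, hfal, hshort, _⟩ := tau1_spec G hv hxi
  have hui : G.inn u := inn_of_notS hb huS
  have htx : G.t u < G.t (G.lo v) := by
    have := t_lt_ch hch hui
    rwa [hu3] at this
  have hu2 : u ≠ G.lo v := fun e => by rw [e] at htx; exact lt_irrefl _ htx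
  have htu : G.t (G.up v) ≤ G.t u := orb_t hch hu1
  have htv : G.t v < G.t (G.up v) := t_up G hv
  have hN : G.t u ≤ G.N := (G.t_in u hui.1 hui.2).le
  have hbu : G.b (G.up v) ≤ G.t v + 1 := (al_up G hv).2.1
  have hbx : G.b (G.lo v) ≤ G.t v + 1 := (al_lo G hv).2.1
  have hru : host G (law G σ ω) (G.up v) (G.t u) = u := host_t hch hu1 hui
  have h0 : host G (law G σ ω) (G.up v) (G.t v + 1) = G.up v := host_self hch (by omega)
  have hxup : G.r (G.lo v) < G.r (G.up v) := (r_lo G hv).trans (r_up G hv)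
  have hkeep : ∀ τ, G.t v + 1 ≤ τ → τ ≤ G.t u → G.r (G.lo v) < G.r (host G (law G σ ω) (G.up v) τ) := by
    intro τ h1 h2
    have h3 := (order_bar hch (u := G.up v) (y := G.lo v) (τ1 := G.t v + 1) (τ2 := τ) hbu hbx h1 (by omega)
      (by omega)).2.1 (by rw [h0]; exact hxup)
    refine lt_of_le_of_ne h3 fun e => ?_
    have h4 := (order_bar hch (u := G.up v) (y := G.lo v) (τ1 := τ) (τ2 := G.t u) (by omega) (by omega) h2 (by omega)
      (by omega)).2.2 (G.r_inj e).symm
    rw [hru] at h4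
    exact hu2 h4
  have hxu : G.r (G.lo v) < G.r u := by
    have := hkeep (G.t u) (by omega) le_rfl
    rwa [hru] at this
  have hlo : G.lo u = G.lo v := by
    rcases hch.2.2 u hui with h1 | h1
    · rw [← h1, hu3]
    · have h2 := r_up G hui
      rw [← h1, hu3] at h2
      omega
  have hπ : law G σ ω u = G.lo u := by rw [hu3, hlo]
  have hub : G.ub (G.lo v) (G.t u) = u := by
    have := D70.ub_lo_t G hui
    rwa [hlo] at this
  have hub1 : G.ub (G.lo v) (G.t u + 1) = G.up u := by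
    have := ub_lo G hui
    rwa [hlo] at this
  rcases lt_trichotomy (G.t u + 1) (G.tau1 v) with hA | hC | hB
  · -- before the first long head
    exfalso
    have h1 := hshort (G.t u + 1) (by omega) hA
    rw [hub1, ← hlo] at h1
    rcases zz_oo G u with ⟨h2, _, _⟩ | ⟨_, hzu, hou⟩
    · omega
    by_cases h2 : u ∈ σ.Dec
    · have h3 := hDD u h2 huS (by rw [← law_SD ω (Or.inr h2)]; exact hπ) (by rw [hlo]; exact hx)
      omega
    · have h3 : G.coin u = G.coin v := by
        rw [Pool.Agent.W_a4f561_E73.coin_lo hui hzu, Pool.Agent.W_a4f561_E73.coin_lo hv hz, hlo]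
      have h4 := law_false huS h2 (ω := ω) (by rw [h3]; exact hc)
      rw [hπ, hou] at h4
      exact lo_ne_up hui h4
  · -- the exposure
    have hup : G.up u = G.flh v := by
      rw [← hub1, hC]
      rfl
    have hlt2 : G.t (G.lo u) < G.t (G.up u) := by
      rw [hup, hlo]
      exact hft
    refine ⟨hC, ?_⟩
    rcases zz_oo G u with ⟨_, hzu, hou⟩ | ⟨h2, _, _⟩
    swap
    · exact absurd hlt2 h2
    by_cases h2 : u ∈ σ.Dec
    · left
      exact ⟨u, h2, huS, by rw [← law_SD ω (Or.inr h2)]; exact hπ, hlo, hC, hup⟩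
    · right
      rw [← hup, ← Pool.Agent.W_a4f561_E73.coin_up hui hzu]
      cases hcu : ω (G.coin u)
      · rfl
      · exfalso
        rw [law_true huS h2 hcu, hzu] at hπ
        exact lo_ne_up hui hπ.symm
  · -- after the first long head
    exfalso
    have htau : G.tau1 v ≤ G.t u := by omega
    have h1 : G.r (G.flh v) ≤ G.r (host G (law G σ ω) (G.up v) (G.tau1 v)) :=
      D70.ub_le G (host_al hch (by omega) (by omega)) (hkeep _ (by omega) htau) (by omega)
    have h2 : G.r u ≤ G.r (G.flh v) := by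
      have h3 : G.r (G.lo v) < G.r (G.flh v) := by
        refine (ub_spec G (x := G.lo v) (τ := G.tau1 v) (by omega) fun e => ?_).2.1
        have h4 := r_lo G hv
        rw [e] at h4
        have h5 := G.r_top v hv.2
        omega
      have := D70.ub_le G (x := G.lo v) (u := G.flh v) (τ := G.t u) ⟨hfal.1.trans htau, by omega⟩ h3 (by omega)
      rwa [hub] at this
    have h6 : u = G.flh v := by
      rcases h1.lt_or_eq with h3 | h3
      · have h4 := (order_bar hch (u := G.up v) (y := G.flh v) (τ1 := G.tau1 v) (τ2 := G.t u) (by omega) hfal.1 htau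
          (by omega) (by omega)).2.1 h3
        rw [hru] at h4
        exact G.r_inj (le_antisymm h2 h4)
      · have h4 := (order_bar hch (u := G.up v) (y := G.flh v) (τ1 := G.tau1 v) (τ2 := G.t u) (by omega) hfal.1 htau
          (by omega) (by omega)).2.2 (G.r_inj h3).symm
        rw [hru] at h4
        exact h4
    rw [h6] at htx
    omega

/-- The other branch stays above `x = lo v` as long as it is not at `x`, and it is not at `x` before the first long head. -/
theorem stay {v : V} (hDS : ∀ u ∈ D, u ∉ σ.S) (hvS : v ∉ σ.S) (hz : G.zz v = G.lo v) (hx : G.lo v ∉ σ.S)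
    {ω : V × Bool → Bool} (hc : ω (G.coin v) = false) {w : V} (hR : PD G D (law G σ ω) (G.up v) w)
    (hxw : G.t (G.lo v) ≤ G.t w) {τ : ℕ} (h1 : G.t v < τ)
    (h2 : τ < G.tau1 v ∨ (τ ≤ G.t (G.lo v) ∧ ¬ Orb (law G σ ω) (G.up v) (G.lo v))) :
    G.r (G.ub (G.lo v) τ) ≤ G.r (host G (law G σ ω) (G.up v) τ) := by
  have hv : G.inn v := inn_of_notS hb hvS
  have hxi : G.inn (G.lo v) := inn_of_notS hb hx
  have hch := law_ch hb ω
  obtain ⟨hlt, htau1, hft, hfal, hshort, _⟩ := tau1_spec G hv hxi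
  have hN : G.t (G.lo v) < G.N := G.t_in _ hxi.1 hxi.2
  have hτx : τ ≤ G.t (G.lo v) := by
    rcases h2 with h2 | h2
    · omega
    · exact h2.1
  have htv : G.t v < G.t (G.up v) := t_up G hv
  have hbu : G.b (G.up v) ≤ G.t v + 1 := (al_up G hv).2.1
  have hbx : G.b (G.lo v) ≤ G.t v + 1 := (al_lo G hv).2.1
  have h0 : host G (law G σ ω) (G.up v) (G.t v + 1) = G.up v := host_self hch (by omega)
  have hxup : G.r (G.lo v) < G.r (G.up v) := (r_lo G hv).trans (r_up G hv)
  have h3 := (order_bar hch (u := G.up v) (y := G.lo v) (τ1 := G.t v + 1) (τ2 := τ) hbu hbx (by omega) (by omega)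
    (by omega)).2.1 (by rw [h0]; exact hxup)
  refine D70.ub_le G (host_al hch (by omega) (by omega)) (lt_of_le_of_ne h3 fun e => ?_) (by omega)
  have e' : host G (law G σ ω) (G.up v) τ = G.lo v := (G.r_inj e).symm
  have ho : Orb (law G σ ω) (G.up v) (G.lo v) := by
    rw [← e']
    exact host_orb G _ _ _
  rcases h2 with h2 | h2
  · obtain ⟨u, hu1, hu2, hu3⟩ := D70.orb_pred ho (lo_ne_up hv).symm
    have huc : Orb (law G σ ω) u (G.lo v) := by
      rw [← hu3]
      exact orb_step (orb_refl _ _)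
    have hut : G.t u < G.t (G.lo v) := lt_of_le_of_ne (orb_t hch huc) fun e => hu2 (G.t_inj e)
    have huS : u ∉ σ.S := hDS u (hR.2 u hu1 (by omega))
    have hui : G.inn u := inn_of_notS hb huS
    obtain ⟨h4, _⟩ := det1' hb hDD hvS hz hx hc hu1 huS hu3
    have h5 := (order_bar hch (u := G.up v) (y := G.lo v) (τ1 := τ) (τ2 := G.t u) (by omega) (by omega) (by omega)
      (by omega) (by omega)).2.2 e'
    rw [host_t hch hu1 hui] at h5
    exact hu2 h5
  · exact h2.2 ho

end alt

section ew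

variable (hb : Base0 G σ) (hDD : HD G σ) (hDS : ∀ u ∈ D, u ∉ σ.S)

/-- Case A. -/
theorem ew_A {w x y : V} {ω : V × Bool → Bool} (hR : PD G D (law G σ ω) y w) : Ew G σ D w x y ω :=
  fun _ _ hP => ⟨w, hP.1, le_rfl, hR.1, fun v h1 h2 => hR.2 v h1 h2.le⟩

include hb hDD hDS

/-- The other branch at time `τ` and (SQ). -/
theorem ew_sq {s : ℕ} (hL : LENS G σ D s) {v : V} (hs : s < G.t v) (hvS : v ∉ σ.S) (hz : G.zz v = G.lo v)
    (hx : G.lo v ∉ σ.S) {ω : V × Bool → Bool} (hc : ω (G.coin v) = false) {w : V}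
    (hR : PD G D (law G σ ω) (G.up v) w) {τ : ℕ} (h1 : G.t v < τ)
    (h2 : τ < G.tau1 v ∨ (τ ≤ G.t (G.lo v) ∧ ¬ Orb (law G σ ω) (G.up v) (G.lo v))) :
    Ew G σ D w (G.lo v) (G.ub (G.lo v) τ) ω := by
  intro π hπ hP
  have hv : G.inn v := inn_of_notS hb hvS
  have hxi : G.inn (G.lo v) := inn_of_notS hb hx
  have hch := law_ch hb ω
  have hxw : G.t (G.lo v) ≤ G.t w := orb_t hπ.1 hP.1
  have hwi : G.inn w := inn_of_notS hb (hDS w hP.mem)
  have hwN : G.t w < G.N := G.t_in w hwi.1 hwi.2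
  obtain ⟨hlt, htau1, hft, hfal, hshort, _⟩ := tau1_spec G hv hxi
  have hτx : τ ≤ G.t (G.lo v) := by
    rcases h2 with h2 | h2
    · omega
    · exact h2.1
  have hbu : G.b (G.up v) ≤ G.t v + 1 := (al_up G hv).2.1
  have hbx : G.b (G.lo v) ≤ G.t v + 1 := (al_lo G hv).2.1
  have hst := stay hb hDD hDS hvS hz hx hc hR hxw h1 h2
  have hsp := ub_spec G (x := G.lo v) (τ := τ) (by omega) hxi.2
  refine sq hL (by omega : s < τ) hπ (law_fin hb ω) (x' := host G (law G σ ω) (G.up v) τ) ⟨by omega, hτx⟩ hsp.1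
    (host_al hch (by omega) (by omega)) hsp.2.1 hst hP (hR.sub (host_orb G _ _ _) ?_) hwi
  have h3 : Orb (law G σ ω) (host G (law G σ ω) (G.up v) τ)
      (host G (law G σ ω) (host G (law G σ ω) (G.up v) τ) (G.t w)) := host_orb G _ _ _
  rwa [host_add hch (by omega) (by omega) (by omega), host_t hch hR.1 hwi] at h3

/-- Case B. -/
theorem ew_B {s : ℕ} (hL : LENS G σ D s) {v : V} (hs : s < G.t v) (hvS : v ∉ σ.S) (hz : G.zz v = G.lo v)
    (hx : G.lo v ∉ σ.S) {ω : V × Bool → Bool} (hc : ω (G.coin v) = false) {w h : V}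
    (hR : PD G D (law G σ ω) (G.up v) w) (hh : Sh G v h) : Ew G σ D w (G.lo v) h ω := by
  obtain ⟨τ, h1, h2, rfl⟩ := hh
  exact ew_sq hb hDD hDS hL hs hvS hz hx hc hR h1 (Or.inl h2)

/-- Case C. -/
theorem ew_C {s : ℕ} (hL : LENS G σ D s) {v : V} (hs : s < G.t v) (hvS : v ∉ σ.S) (hz : G.zz v = G.lo v)
    (hx : G.lo v ∉ σ.S) {ω : V × Bool → Bool} (hc : ω (G.coin v) = false) {w : V}
    (hR : PD G D (law G σ ω) (G.up v) w) (hf : ¬ fb G σ v) :
    Ew G σ D w (G.lo v) (G.flh v) ω ∨ (ω (G.blw (G.flh v)) = false ∧ PD G D (law G σ ω) (G.lo v) w) := by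
  have hv : G.inn v := inn_of_notS hb hvS
  have hxi : G.inn (G.lo v) := inn_of_notS hb hx
  have hch := law_ch hb ω
  obtain ⟨hlt, htau1, hft, hfal, hshort, _⟩ := tau1_spec G hv hxi
  by_cases hxw : G.t (G.lo v) ≤ G.t w
  · by_cases ho : Orb (law G σ ω) (G.up v) (G.lo v)
    · right
      obtain ⟨u, hu1, hu2, hu3⟩ := D70.orb_pred ho (lo_ne_up hv).symm
      have huc : Orb (law G σ ω) u (G.lo v) := by
        rw [← hu3]
        exact orb_step (orb_refl _ _)
      have hut : G.t u < G.t (G.lo v) := lt_of_le_of_ne (orb_t hch huc) fun e => hu2 (G.t_inj e)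
      have huS : u ∉ σ.S := hDS u (hR.2 u hu1 (by omega))
      obtain ⟨_, h4⟩ := det1' hb hDD hvS hz hx hc hu1 huS hu3
      rcases h4 with h4 | h4
      · exact absurd h4 hf
      · exact ⟨h4, hR.sub ho (orb_comp hch ho hR.1 hxw)⟩
    · left
      exact ew_sq hb hDD hDS hL hs hvS hz hx hc hR hlt (Or.inr ⟨htau1, ho⟩)
  · left
    intro π hπ hP
    exact absurd (orb_t hπ.1 hP.1) hxw

end ew

end Pool.Agent.W_a4f561_P73
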